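import Mathlib

set_option autoImplicit false
open Complex Metric Set Filter Topology MeasureTheory ComplexConjugate

namespace Pool.Agent.H784R2.Bmoa

/-- factoring out finitely many zeros -/
lemma factor {f : ℂ → ℂ} {U : Set ℂ} (hU : IsOpen U) (hf : DifferentiableOn ℂ f U) (Z : Finset ℂ)
    (hZ : ∀ k ∈ Z, k ∈ U) (h0 : ∀ k ∈ Z, f k = 0) :
    ∃ F : ℂ → ℂ, DifferentiableOn ℂ F U ∧ ∀ z, f z = F z * ∏ k ∈ Z, (z - k) := by
  induction Z using Finset.induction_on with
  | empty => exact ⟨f, hf, fun z => by simp⟩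
  | insert a Z ha ih =>
    obtain ⟨F, hF, hFe⟩ := ih (fun k hk => hZ k (Finset.mem_insert_of_mem hk))
      (fun k hk => h0 k (Finset.mem_insert_of_mem hk))
    have haU := hZ a (Finset.mem_insert_self _ _)
    refine ⟨dslope F a, (Complex.differentiableOn_dslope (hU.mem_nhds haU)).2 hF, fun z => ?_⟩
    have h1 : F a = 0 := by
      have h2 := h0 a (Finset.mem_insert_self _ _)
      rw [hFe a] at h2
      rcases mul_eq_zero.1 h2 with h3 | h3
      · exact h3
      · exfalso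
        rw [Finset.prod_eq_zero_iff] at h3
        obtain ⟨k, hk, hk2⟩ := h3
        rw [sub_eq_zero] at hk2
        exact ha (hk2 ▸ hk)
    rw [Finset.prod_insert ha, hFe z]
    have h2 := sub_smul_dslope F a z
    rw [h1, sub_zero, smul_eq_mul] at h2
    rw [← h2]
    ring

/-- the circle mean of an analytic function vanishing at the centre -/
lemma mean_zero {H : ℂ → ℂ} {ρ : ℝ} (hρ : 0 < ρ) (hc : DiffContOnCl ℂ H (ball 0 ρ)) (h0 : H 0 = 0) :
    ∫ θ in (0:ℝ)..2 * Real.pi, H (circleMap 0 ρ θ) = 0 := by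
  have h1 := hc.circleIntegral_sub_inv_smul (mem_ball_self hρ)
  rw [h0, smul_zero] at h1
  unfold circleIntegral at h1
  have h2 : ∀ θ : ℝ, deriv (circleMap 0 ρ) θ • ((circleMap 0 ρ θ - 0)⁻¹ • H (circleMap 0 ρ θ))
      = I * H (circleMap 0 ρ θ) := by
    intro θ
    have h3 : circleMap 0 ρ θ ≠ 0 := by
      rw [Ne, circleMap_eq_center_iff]
      exact hρ.ne'
    rw [deriv_circleMap, sub_zero, smul_eq_mul, smul_eq_mul]
    field_simp
  simp only [h2] at h1
  rw [intervalIntegral.integral_const_mul] at h1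
  rcases mul_eq_zero.1 h1 with h3 | h3
  · exact absurd h3 I_ne_zero
  · exact h3

lemma norm_le_mean {G : ℂ → ℂ} {ρ : ℝ} (hc : DiffContOnCl ℂ G (ball 0 ρ)) {z₀ : ℂ}
    (hz : ‖z₀‖ < ρ) :
    ‖G z₀‖ ≤ (2 * Real.pi)⁻¹ * (ρ / (ρ - ‖z₀‖)) *
      ∫ θ in (0:ℝ)..2 * Real.pi, ‖G (circleMap 0 ρ θ)‖ := by
  have hρ : 0 < ρ := lt_of_le_of_lt (norm_nonneg _) hz
  have h1 := hc.two_pi_i_inv_smul_circleIntegral_sub_inv_smul (w := z₀) (by simpa using hz)
  have hcont : Continuous (fun θ : ℝ => ‖G (circleMap 0 ρ θ)‖) := by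
    have h2 : ContinuousOn G (closedBall 0 ρ) := by
      have := hc.continuousOn
      rwa [closure_ball (0:ℂ) hρ.ne'] at this
    apply Continuous.norm
    apply h2.comp_continuous (continuous_circleMap 0 ρ)
    intro θ
    exact circleMap_mem_closedBall 0 hρ.le θ
  have hcirc : ∀ θ : ℝ, ρ - ‖z₀‖ ≤ ‖circleMap 0 ρ θ - z₀‖ := by
    intro θ
    have h3 := norm_sub_norm_le (circleMap 0 ρ θ) z₀
    rw [norm_circleMap_zero, abs_of_pos hρ] at h3
    exact h3
  rw [← h1, norm_smul]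
  have h4 : ‖(2 * (Real.pi : ℂ) * I)⁻¹‖ = (2 * Real.pi)⁻¹ := by
    rw [norm_inv, norm_mul, norm_mul, norm_I, mul_one, Complex.norm_real, Real.norm_eq_abs,
      abs_of_pos Real.pi_pos]
    simp
  rw [h4, mul_assoc]
  apply mul_le_mul_of_nonneg_left _ (by positivity)
  unfold circleIntegral
  refine (intervalIntegral.norm_integral_le_integral_norm (by positivity)).trans ?_
  rw [← intervalIntegral.integral_const_mul]
  apply intervalIntegral.integral_mono_on (by positivity)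
  · apply Continuous.intervalIntegrable
    have h2 : ContinuousOn G (closedBall 0 ρ) := by
      have := hc.continuousOn
      rwa [closure_ball (0:ℂ) hρ.ne'] at this
    have h3 : Continuous (fun θ : ℝ => G (circleMap 0 ρ θ)) := by
      apply h2.comp_continuous (continuous_circleMap 0 ρ)
      intro θ
      exact circleMap_mem_closedBall 0 hρ.le θ
    have h5 : Continuous (fun θ : ℝ => (circleMap 0 ρ θ - z₀)⁻¹) := by
      apply Continuous.inv₀
      · exact (continuous_circleMap 0 ρ).sub continuous_const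
      · intro θ h6
        have := hcirc θ
        rw [h6, norm_zero] at this
        linarith
    simp only [deriv_circleMap]
    exact (((continuous_circleMap 0 ρ).mul continuous_const).smul (h5.smul h3)).norm
  · apply Continuous.intervalIntegrable
    exact continuous_const.mul hcont
  · intro θ _
    rw [norm_smul, norm_smul, deriv_circleMap, norm_mul, norm_I, mul_one, norm_circleMap_zero,
      abs_of_pos hρ, norm_inv, ← mul_assoc]
    apply mul_le_mul_of_nonneg_right _ (norm_nonneg _)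
    rw [← div_eq_mul_inv]
    apply div_le_div_of_nonneg_left hρ.le (by linarith) (hcirc θ)

/-- The key inequality. -/
lemma main_ineq {f q : ℂ → ℂ} (hf : DifferentiableOn ℂ f (ball 0 1))
    (hq : DifferentiableOn ℂ q (ball 0 1)) (hfq : ∀ z ∈ ball (0:ℂ) 1, ‖f z + conj (q z)‖ ≤ 1)
    (Z : Finset ℂ) (hZne : Z.Nonempty) (h0 : ∀ k ∈ Z, f k = 0)
    {ρ : ℝ} (hρ : 0 < ρ) (hρ1 : ρ < 1) (hZρ : ∀ k ∈ Z, ‖k‖ < ρ) {z₀ : ℂ} (hz₀ : ‖z₀‖ < ρ) :
    ‖q z₀‖ ^ 2 * (∏ k ∈ Z, (ρ / ‖(ρ:ℂ) ^ 2 - conj k * z₀‖)) ^ 2 ≤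
      (2 * Real.pi)⁻¹ * (ρ / (ρ - ‖z₀‖)) * ∫ θ in (0:ℝ)..2 * Real.pi,
        (1 - ‖f (circleMap 0 ρ θ)‖ ^ 2) * ∏ k ∈ Z, (‖circleMap 0 ρ θ - k‖ ^ 2)⁻¹ := by
  have hsub : closedBall (0:ℂ) ρ ⊆ ball 0 1 := closedBall_subset_ball hρ1
  have hZ1 : ∀ k ∈ Z, k ∈ ball (0:ℂ) 1 := fun k hk => by
    rw [mem_ball_zero_iff]; exact (hZρ k hk).trans hρ1
  obtain ⟨F, hF, hFe⟩ := factor isOpen_ball hf Z hZ1 h0
  -- denominators
  have hden : ∀ k ∈ Z, ∀ z ∈ closedBall (0:ℂ) ρ, (ρ:ℂ) ^ 2 - conj k * z ≠ 0 := by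
    intro k hk z hz h1
    rw [sub_eq_zero] at h1
    have h2 := congrArg norm h1
    rw [norm_mul, norm_pow, Complex.norm_real, Real.norm_eq_abs, abs_of_pos hρ,
      RCLike.norm_conj] at h2
    have h3 := hZρ k hk
    rw [mem_closedBall_zero_iff] at hz
    have h4 : ‖k‖ * ‖z‖ ≤ ‖k‖ * ρ := mul_le_mul_of_nonneg_left hz (norm_nonneg _)
    nlinarith
  set g : ℂ → ℂ := fun z => ∏ k ∈ Z, ((ρ:ℂ) / ((ρ:ℂ) ^ 2 - conj k * z)) with hg
  set D : ℂ → ℂ := fun z => ∏ k ∈ Z, ((ρ:ℂ) ^ 2 - conj k * z) with hD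
  have hDne : ∀ z ∈ closedBall (0:ℂ) ρ, D z ≠ 0 := by
    intro z hz
    rw [hD]
    exact Finset.prod_ne_zero_iff.2 (fun k hk => hden k hk z hz)
  have hDd : Differentiable ℂ D := by
    rw [hD]
    apply Differentiable.fun_finsetProd
    intro k _
    fun_prop
  have hgD : ∀ z, g z = (ρ:ℂ) ^ Z.card / D z := by
    intro z
    rw [hg, hD]
    simp only
    rw [Finset.prod_div_distrib, Finset.prod_const]
  -- on the circle
  have hcircle : ∀ θ : ℝ, circleMap 0 ρ θ ∈ closedBall (0:ℂ) ρ :=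
    fun θ => circleMap_mem_closedBall 0 hρ.le θ
  have hnc : ∀ θ : ℝ, ‖circleMap 0 ρ θ‖ = ρ := fun θ => by
    rw [norm_circleMap_zero, abs_of_pos hρ]
  have hzk : ∀ θ : ℝ, ∀ k ∈ Z, circleMap 0 ρ θ - k ≠ 0 := by
    intro θ k hk h1
    rw [sub_eq_zero] at h1
    have := hZρ k hk
    rw [← h1, hnc] at this
    exact lt_irrefl _ this
  have hzz : ∀ θ : ℝ, (ρ:ℂ) ^ 2 = circleMap 0 ρ θ * conj (circleMap 0 ρ θ) := by
    intro θ
    rw [Complex.mul_conj, Complex.normSq_eq_norm_sq, hnc]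
    push_cast; rfl
  set w : ℝ → ℝ := fun θ => ∏ k ∈ Z, (‖circleMap 0 ρ θ - k‖ ^ 2)⁻¹ with hw
  have hwpos : ∀ θ, 0 < w θ := by
    intro θ
    rw [hw]
    apply Finset.prod_pos
    intro k hk
    have : 0 < ‖circleMap 0 ρ θ - k‖ := norm_pos_iff.2 (hzk θ k hk)
    positivity
  have hwcont : Continuous w := by
    rw [hw]
    apply continuous_finsetProd
    intro k hk
    apply Continuous.inv₀
    · exact (((continuous_circleMap 0 ρ).sub continuous_const).norm).pow 2
    · intro θ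
      have : 0 < ‖circleMap 0 ρ θ - k‖ := norm_pos_iff.2 (hzk θ k hk)
      positivity
  have hgw : ∀ θ, ‖g (circleMap 0 ρ θ)‖ ^ 2 = w θ := by
    intro θ
    rw [hg, hw]
    simp only
    rw [norm_prod, ← Finset.prod_pow]
    apply Finset.prod_congr rfl
    intro k hk
    have h1 : (ρ:ℂ) ^ 2 - conj k * circleMap 0 ρ θ = circleMap 0 ρ θ * conj (circleMap 0 ρ θ - k) := by
      rw [hzz θ, map_sub]; ring
    rw [h1, norm_div, norm_mul, RCLike.norm_conj, hnc, Complex.norm_real, Real.norm_eq_abs,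
      abs_of_pos hρ]
    have : 0 < ‖circleMap 0 ρ θ - k‖ := norm_pos_iff.2 (hzk θ k hk)
    field_simp
  have hgd : ∀ z ∈ closedBall (0:ℂ) ρ, DifferentiableAt ℂ g z := by
    intro z hz
    have h1 : g = fun z => (ρ:ℂ) ^ Z.card / D z := funext hgD
    rw [h1]
    exact (differentiableAt_const _).div (hDd z) (hDne z hz)
  have hat : ∀ {h : ℂ → ℂ}, DifferentiableOn ℂ h (ball 0 1) → ∀ z ∈ closedBall (0:ℂ) ρ,
      DifferentiableAt ℂ h z := fun hh z hz => hh.differentiableAt (isOpen_ball.mem_nhds (hsub hz))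
  -- Cauchy for G = (q g)^2
  have hG : DiffContOnCl ℂ (fun z => (q z * g z) ^ 2) (ball 0 ρ) := by
    apply DifferentiableOn.diffContOnCl
    rw [closure_ball (0:ℂ) hρ.ne']
    intro z hz
    exact (((hat hq z hz).mul (hgd z hz)).pow 2).differentiableWithinAt
  have h1 := norm_le_mean hG hz₀
  have h2 : ‖(q z₀ * g z₀) ^ 2‖ = ‖q z₀‖ ^ 2 * (∏ k ∈ Z, (ρ / ‖(ρ:ℂ) ^ 2 - conj k * z₀‖)) ^ 2 := by
    rw [norm_pow, norm_mul, mul_pow, hg]
    simp only
    rw [norm_prod]
    congr 2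
    apply Finset.prod_congr rfl
    intro k _
    rw [norm_div, Complex.norm_real, Real.norm_eq_abs, abs_of_pos hρ]
  rw [h2] at h1
  refine h1.trans ?_
  have hpos : 0 ≤ (2 * Real.pi)⁻¹ * (ρ / (ρ - ‖z₀‖)) := by
    have : 0 < ρ - ‖z₀‖ := by linarith
    positivity
  apply mul_le_mul_of_nonneg_left _ hpos
  -- continuity facts
  have hqc : Continuous (fun θ : ℝ => q (circleMap 0 ρ θ)) :=
    hq.continuousOn.comp_continuous (continuous_circleMap 0 ρ) (fun θ => hsub (hcircle θ))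
  have hfc : Continuous (fun θ : ℝ => f (circleMap 0 ρ θ)) :=
    hf.continuousOn.comp_continuous (continuous_circleMap 0 ρ) (fun θ => hsub (hcircle θ))
  -- the analytic function H
  set H : ℂ → ℂ := fun z => F z * q z * z ^ Z.card / D z with hH
  have hHd : DiffContOnCl ℂ H (ball 0 ρ) := by
    apply DifferentiableOn.diffContOnCl
    rw [closure_ball (0:ℂ) hρ.ne']
    intro z hz
    apply DifferentiableAt.differentiableWithinAt
    rw [hH]
    exact ((((hat hF z hz).mul (hat hq z hz)).mul (by fun_prop)).div (hDd z) (hDne z hz))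
  have hH0 : H 0 = 0 := by
    rw [hH]
    simp only
    rw [zero_pow (Finset.card_pos.2 hZne).ne']
    simp
  have hmean := mean_zero hρ hHd hH0
  have hHc : ∀ θ : ℝ, H (circleMap 0 ρ θ) = f (circleMap 0 ρ θ) * q (circleMap 0 ρ θ) * (w θ : ℂ) := by
    intro θ
    rw [hH, hw, hFe (circleMap 0 ρ θ)]
    simp only
    push_cast
    have h3 : D (circleMap 0 ρ θ) = circleMap 0 ρ θ ^ Z.card * ∏ k ∈ Z, conj (circleMap 0 ρ θ - k) := by
      rw [hD]
      simp only
      rw [← Finset.prod_const, ← Finset.prod_mul_distrib]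
      apply Finset.prod_congr rfl
      intro k _
      rw [hzz θ, map_sub]; ring
    have h4 : (∏ k ∈ Z, (((‖circleMap 0 ρ θ - k‖ : ℂ)) ^ 2)⁻¹)
        = (∏ k ∈ Z, (circleMap 0 ρ θ - k))⁻¹ * (∏ k ∈ Z, conj (circleMap 0 ρ θ - k))⁻¹ := by
      rw [← Finset.prod_inv_distrib, ← Finset.prod_inv_distrib, ← Finset.prod_mul_distrib]
      apply Finset.prod_congr rfl
      intro k _
      rw [← mul_inv, Complex.mul_conj, Complex.normSq_eq_norm_sq]
      push_cast; rfl
    rw [h3, h4]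
    have h5 : (∏ k ∈ Z, (circleMap 0 ρ θ - k)) ≠ 0 := Finset.prod_ne_zero_iff.2 (fun k hk => hzk θ k hk)
    have h6 : (∏ k ∈ Z, conj (circleMap 0 ρ θ - k)) ≠ 0 :=
      Finset.prod_ne_zero_iff.2 (fun k hk => (map_ne_zero _).2 (hzk θ k hk))
    have h7 : circleMap 0 ρ θ ≠ 0 := by
      rw [Ne, circleMap_eq_center_iff]
      exact hρ.ne'
    field_simp
  have hre : ∫ θ in (0:ℝ)..2 * Real.pi, (f (circleMap 0 ρ θ) * q (circleMap 0 ρ θ)).re * w θ = 0 := by
    simp only [hHc] at hmean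
    have h3 : Continuous (fun θ : ℝ => f (circleMap 0 ρ θ) * q (circleMap 0 ρ θ) * (w θ : ℂ)) :=
      (hfc.mul hqc).mul (continuous_ofReal.comp hwcont)
    have h4 := Complex.reCLM.intervalIntegral_comp_comm (h3.intervalIntegrable 0 (2 * Real.pi))
      (μ := volume)
    rw [hmean, map_zero] at h4
    refine Eq.trans ?_ h4
    apply intervalIntegral.integral_congr
    intro θ _
    simp [Complex.mul_re]
  have hlast : ∫ θ in (0:ℝ)..2 * Real.pi, ‖(q (circleMap 0 ρ θ) * g (circleMap 0 ρ θ)) ^ 2‖ ≤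
      ∫ θ in (0:ℝ)..2 * Real.pi, ((1 - ‖f (circleMap 0 ρ θ)‖ ^ 2) * w θ -
        2 * ((f (circleMap 0 ρ θ) * q (circleMap 0 ρ θ)).re * w θ)) := by
    apply intervalIntegral.integral_mono_on (by positivity)
    · apply Continuous.intervalIntegrable
      have h3 : (fun θ : ℝ => ‖(q (circleMap 0 ρ θ) * g (circleMap 0 ρ θ)) ^ 2‖)
          = fun θ => ‖q (circleMap 0 ρ θ)‖ ^ 2 * w θ := by
        funext θ
        rw [norm_pow, norm_mul, mul_pow, hgw]
      rw [h3]
      exact (hqc.norm.pow 2).mul hwcont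
    · apply Continuous.intervalIntegrable
      exact ((continuous_const.sub (hfc.norm.pow 2)).mul hwcont).sub
        (continuous_const.mul ((Complex.continuous_re.comp (hfc.mul hqc)).mul hwcont))
    · intro θ _
      rw [norm_pow, norm_mul, mul_pow, hgw]
      have h3 := hfq _ (hsub (hcircle θ))
      have h4 : ‖f (circleMap 0 ρ θ) + conj (q (circleMap 0 ρ θ))‖ ^ 2 ≤ 1 := by
        have := norm_nonneg (f (circleMap 0 ρ θ) + conj (q (circleMap 0 ρ θ)))
        nlinarith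
      have h5 : ‖f (circleMap 0 ρ θ) + conj (q (circleMap 0 ρ θ))‖ ^ 2 =
          ‖f (circleMap 0 ρ θ)‖ ^ 2 + ‖q (circleMap 0 ρ θ)‖ ^ 2 +
            2 * (f (circleMap 0 ρ θ) * q (circleMap 0 ρ θ)).re := by
        rw [← Complex.normSq_eq_norm_sq, ← Complex.normSq_eq_norm_sq, ← Complex.normSq_eq_norm_sq]
        simp only [Complex.normSq_apply, Complex.add_re, Complex.add_im, Complex.conj_re,
          Complex.conj_im, Complex.mul_re]
        ring
      rw [h5] at h4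
      have h6 : ‖q (circleMap 0 ρ θ)‖ ^ 2 ≤ 1 - ‖f (circleMap 0 ρ θ)‖ ^ 2 -
          2 * (f (circleMap 0 ρ θ) * q (circleMap 0 ρ θ)).re := by linarith
      have h7 := mul_le_mul_of_nonneg_right h6 (hwpos θ).le
      linarith
  refine hlast.trans ?_
  rw [intervalIntegral.integral_sub, intervalIntegral.integral_const_mul, hre, mul_zero, sub_zero]
  · exact (((continuous_const.sub (hfc.norm.pow 2)).mul hwcont)).intervalIntegrable _ _
  · exact (continuous_const.mul ((Complex.continuous_re.comp (hfc.mul hqc)).mul hwcont)).intervalIntegrable _ _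

end Pool.Agent.H784R2.Bmoa
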