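import Pool.Agent.H784R2.BmoaA

set_option autoImplicit false
open Complex Metric Set Filter Topology MeasureTheory ComplexConjugate

namespace Pool.Agent.H784R2.Bmoa

/-- principal square root -/
noncomputable def csq (w : ℂ) : ℂ := exp (log w / 2)

lemma csq_sq {w : ℂ} (hw : w ≠ 0) : csq w ^ 2 = w := by
  unfold csq
  rw [← Complex.exp_nat_mul]
  push_cast
  rw [mul_div_cancel₀ _ (by norm_num : (2:ℂ) ≠ 0)]
  exact exp_log hw

lemma csq_re_pos {w : ℂ} (hw : w ∈ slitPlane) : 0 < (csq w).re := by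
  unfold csq
  rw [exp_re]
  have h1 : (log w / 2).im = arg w / 2 := by
    rw [show log w / 2 = log w / ((2:ℝ) : ℂ) by push_cast; rfl, Complex.div_ofReal_im, log_im]
  rw [h1]
  apply mul_pos (Real.exp_pos _)
  apply Real.cos_pos_of_mem_Ioo
  have h2 := Complex.neg_pi_lt_arg w
  have h3 := (Complex.arg_le_pi w).lt_of_ne (Complex.slitPlane_arg_ne_pi hw)
  constructor <;> linarith

/-- `(Re √w)² = (|w| + Re w)/2` -/
lemma csq_re_sq {w : ℂ} (hw : w ≠ 0) : (csq w).re ^ 2 = (‖w‖ + w.re) / 2 := by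
  have h1 := csq_sq hw
  have h2 : ‖csq w‖ ^ 2 = ‖w‖ := by rw [← norm_pow, h1]
  have h3 : (csq w).re ^ 2 + (csq w).im ^ 2 = ‖w‖ := by
    rw [← h2, ← Complex.normSq_eq_norm_sq, Complex.normSq_apply]; ring
  have h4 : (csq w).re ^ 2 - (csq w).im ^ 2 = w.re := by
    have h5 := congrArg Complex.re h1
    rw [pow_two, Complex.mul_re] at h5
    linarith
  linarith

noncomputable def uu (z : ℂ) : ℂ := (1 + z) / (1 - z)

lemma one_sub_ne {z : ℂ} (hz : z ∈ ball (0:ℂ) 1) : 1 - z ≠ 0 := by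
  intro h
  rw [sub_eq_zero] at h
  rw [← h] at hz
  simp at hz

lemma uu_re_pos {z : ℂ} (hz : z ∈ ball (0:ℂ) 1) : 0 < (uu z).re := by
  have h1 := one_sub_ne hz
  have h2 : (uu z).re = (1 - ‖z‖ ^ 2) / ‖1 - z‖ ^ 2 := by
    unfold uu
    rw [Complex.div_re, ← Complex.normSq_eq_norm_sq, ← Complex.normSq_eq_norm_sq]
    simp only [Complex.normSq_apply, add_re, add_im, sub_re, sub_im, one_re, one_im]
    rw [← add_div]
    congr 1
    ring
  rw [h2]
  rw [mem_ball_zero_iff] at hz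
  have h3 : 0 < ‖1 - z‖ := norm_pos_iff.2 h1
  have h4 : 0 < 1 - ‖z‖ ^ 2 := by nlinarith [norm_nonneg z]
  positivity

noncomputable def WW (z : ℂ) : ℂ := 1 + uu z ^ 2

lemma WW_slit {z : ℂ} (hz : z ∈ ball (0:ℂ) 1) : WW z ∈ slitPlane := by
  have h1 := uu_re_pos hz
  rw [mem_slitPlane_iff]
  unfold WW
  rw [pow_two]
  simp only [add_re, add_im, one_re, one_im, mul_re, mul_im]
  by_cases h2 : (uu z).im = 0
  · left
    rw [h2]
    nlinarith
  · right
    intro h3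
    apply h2
    have h4 : 2 * ((uu z).re * (uu z).im) = 0 := by linarith
    rcases mul_eq_zero.1 h4 with h5 | h5
    · norm_num at h5
    · rcases mul_eq_zero.1 h5 with h6 | h6
      · exact absurd h6 h1.ne'
      · exact h6

/-- `E = exp(-√(1+u²))` -/
noncomputable def EE (z : ℂ) : ℂ := exp (-(csq (WW z)))

lemma uu_diff {z : ℂ} (hz : 1 - z ≠ 0) : DifferentiableAt ℂ uu z := by
  unfold uu
  exact DifferentiableAt.div (by fun_prop) (by fun_prop) hz

lemma EE_diff {z : ℂ} (hz : z ∈ ball (0:ℂ) 1) : DifferentiableAt ℂ EE z := by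
  have h1 := uu_diff (one_sub_ne hz)
  have h2 : DifferentiableAt ℂ WW z := by
    unfold WW
    exact (differentiableAt_const _).add (h1.pow 2)
  unfold EE csq
  exact (((h2.clog (WW_slit hz)).div_const 2).cexp.fun_neg).cexp

/-- the real function `R = Re √(1+u²)` -/
noncomputable def RR (z : ℂ) : ℝ := Real.sqrt ((‖WW z‖ + (WW z).re) / 2)

lemma RR_eq {z : ℂ} (hz : z ∈ ball (0:ℂ) 1) : (csq (WW z)).re = RR z := by
  have h1 := slitPlane_ne_zero (WW_slit hz)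
  unfold RR
  rw [← csq_re_sq h1, Real.sqrt_sq (csq_re_pos (WW_slit hz)).le]

lemma norm_EE {z : ℂ} (hz : z ∈ ball (0:ℂ) 1) : ‖EE z‖ = Real.exp (-RR z) := by
  unfold EE
  rw [Complex.norm_exp, neg_re, RR_eq hz]

lemma RR_nonneg (z : ℂ) : 0 ≤ RR z := Real.sqrt_nonneg _

lemma norm_EE_le {z : ℂ} (hz : z ∈ ball (0:ℂ) 1) : ‖EE z‖ ≤ 1 := by
  rw [norm_EE hz]
  exact Real.exp_le_one_iff.2 (by linarith [RR_nonneg z])

noncomputable def aa : ℝ := Real.exp (-1)

lemma aa_pos : 0 < aa := Real.exp_pos _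
lemma aa_lt : aa < 1 := Real.exp_lt_one_iff.2 (by norm_num)

/-- the counterexample -/
noncomputable def ff (z : ℂ) : ℂ := (EE z - aa) / (1 - aa * EE z)

lemma den_ne {e : ℂ} (he : ‖e‖ ≤ 1) : 1 - (aa:ℂ) * e ≠ 0 := by
  intro h
  rw [sub_eq_zero] at h
  have h1 := congrArg norm h
  rw [norm_one, norm_mul, Complex.norm_real, Real.norm_eq_abs, abs_of_pos aa_pos] at h1
  have := aa_lt
  have := aa_pos
  nlinarith [norm_nonneg e]

lemma ff_diff : DifferentiableOn ℂ ff (ball 0 1) := by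
  intro z hz
  apply DifferentiableAt.differentiableWithinAt
  unfold ff
  exact ((EE_diff hz).sub_const _).div ((differentiableAt_const _).sub ((EE_diff hz).const_mul _))
    (den_ne (norm_EE_le hz))

lemma one_sub_ff {z : ℂ} (hz : z ∈ ball (0:ℂ) 1) :
    1 - ‖ff z‖ ^ 2 = (1 - ‖EE z‖ ^ 2) * (1 - aa ^ 2) / ‖1 - (aa:ℂ) * EE z‖ ^ 2 := by
  have h1 := den_ne (norm_EE_le hz)
  have h2 : 0 < ‖1 - (aa:ℂ) * EE z‖ := norm_pos_iff.2 h1
  unfold ff
  rw [norm_div, div_pow, eq_div_iff (by positivity), sub_mul, div_mul_cancel₀ _ (by positivity)]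
  rw [← Complex.normSq_eq_norm_sq, ← Complex.normSq_eq_norm_sq, ← Complex.normSq_eq_norm_sq]
  simp only [Complex.normSq_apply, sub_re, sub_im, mul_re, mul_im, ofReal_re, ofReal_im, one_re,
    one_im]
  ring

lemma one_sub_EE_nonneg {z : ℂ} (hz : z ∈ ball (0:ℂ) 1) : 0 ≤ 1 - ‖EE z‖ ^ 2 := by
  have := norm_EE_le hz
  nlinarith [norm_nonneg (EE z)]

lemma norm_EE_sq {z : ℂ} (hz : z ∈ ball (0:ℂ) 1) : ‖EE z‖ ^ 2 = Real.exp (-(2 * RR z)) := by
  rw [norm_EE hz, ← Real.exp_nat_mul]; congr 1; push_cast; ring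

lemma one_sub_ff_nonneg {z : ℂ} (hz : z ∈ ball (0:ℂ) 1) : 0 ≤ 1 - ‖ff z‖ ^ 2 := by
  rw [one_sub_ff hz]
  have h1 := one_sub_EE_nonneg hz
  have h2 := aa_lt
  have h3 := aa_pos
  have h4 : 0 ≤ 1 - aa ^ 2 := by nlinarith
  positivity

lemma norm_ff_le {z : ℂ} (hz : z ∈ ball (0:ℂ) 1) : ‖ff z‖ ≤ 1 := by
  have := one_sub_ff_nonneg hz
  nlinarith [norm_nonneg (ff z)]

noncomputable def CC : ℝ := (1 + aa) / (1 - aa)

lemma CC_pos : 0 < CC := by
  have h2 := aa_lt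
  have h3 := aa_pos
  have : 0 < 1 - aa := by linarith
  unfold CC; positivity

/-- the bounding function -/
noncomputable def BB (z : ℂ) : ℝ := min 1 (CC * (1 - Real.exp (-(2 * RR z))))

lemma ff_le_BB {z : ℂ} (hz : z ∈ ball (0:ℂ) 1) : 1 - ‖ff z‖ ^ 2 ≤ BB z := by
  unfold BB
  apply le_min
  · nlinarith [norm_nonneg (ff z)]
  · rw [one_sub_ff hz, ← norm_EE_sq hz]
    have h1 := one_sub_EE_nonneg hz
    have h2 := aa_lt
    have h3 := aa_pos
    have h5 := norm_EE_le hz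
    have h6 : 1 - aa ≤ ‖1 - (aa:ℂ) * EE z‖ := by
      have h7 := norm_sub_norm_le (1:ℂ) ((aa:ℂ) * EE z)
      rw [norm_one, norm_mul, Complex.norm_real, Real.norm_eq_abs, abs_of_pos aa_pos] at h7
      nlinarith
    have h8 : (1 - aa) ^ 2 ≤ ‖1 - (aa:ℂ) * EE z‖ ^ 2 := by
      have : 0 < 1 - aa := by linarith
      exact pow_le_pow_left₀ this.le h6 2
    have h9 : 0 < 1 - aa := by linarith
    have h10 : (1 - ‖EE z‖ ^ 2) * (1 - aa ^ 2) / ‖1 - (aa:ℂ) * EE z‖ ^ 2 ≤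
        (1 - ‖EE z‖ ^ 2) * (1 - aa ^ 2) / (1 - aa) ^ 2 := by
      apply div_le_div_of_nonneg_left _ (by positivity) h8
      apply mul_nonneg h1
      nlinarith
    refine h10.trans (le_of_eq ?_)
    unfold CC
    field_simp
    ring

lemma ff_ge {z : ℂ} (hz : z ∈ ball (0:ℂ) 1) :
    CC⁻¹ * (1 - Real.exp (-(2 * RR z))) ≤ 1 - ‖ff z‖ ^ 2 := by
  rw [one_sub_ff hz, ← norm_EE_sq hz]
  have h1 := one_sub_EE_nonneg hz
  have h2 := aa_lt
  have h3 := aa_pos
  have h5 := norm_EE_le hz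
  have h6 : ‖1 - (aa:ℂ) * EE z‖ ≤ 1 + aa := by
    have h7 := norm_sub_le (1:ℂ) ((aa:ℂ) * EE z)
    rw [norm_one, norm_mul, Complex.norm_real, Real.norm_eq_abs, abs_of_pos aa_pos] at h7
    nlinarith
  have h8 : ‖1 - (aa:ℂ) * EE z‖ ^ 2 ≤ (1 + aa) ^ 2 :=
    pow_le_pow_left₀ (norm_nonneg _) h6 2
  have h9 : 0 < 1 - aa := by linarith
  have h11 : 0 < ‖1 - (aa:ℂ) * EE z‖ := norm_pos_iff.2 (den_ne h5)
  have h10 : (1 - ‖EE z‖ ^ 2) * (1 - aa ^ 2) / (1 + aa) ^ 2 ≤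
      (1 - ‖EE z‖ ^ 2) * (1 - aa ^ 2) / ‖1 - (aa:ℂ) * EE z‖ ^ 2 := by
    apply div_le_div_of_nonneg_left _ (by positivity) h8
    apply mul_nonneg h1
    nlinarith
  refine le_trans (le_of_eq ?_) h10
  unfold CC
  field_simp
  ring

/-- continuity of `RR` away from `1` -/
lemma RR_cont {z : ℂ} (hz : 1 - z ≠ 0) : ContinuousAt RR z := by
  have h1 : ContinuousAt uu z := (uu_diff hz).continuousAt
  have h2 : ContinuousAt WW z := by
    unfold WW
    exact continuousAt_const.add (h1.pow 2)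
  unfold RR
  apply Real.continuous_sqrt.continuousAt.comp
  exact ((h2.norm.add (Complex.continuous_re.continuousAt.comp h2)).div_const 2)

lemma BB_cont {z : ℂ} (hz : 1 - z ≠ 0) : ContinuousAt BB z := by
  have h1 := RR_cont hz
  unfold BB
  apply continuousAt_const.min
  apply continuousAt_const.mul
  apply continuousAt_const.sub
  apply Real.continuous_exp.continuousAt.comp
  exact (continuousAt_const.mul h1).neg

lemma BB_nonneg (z : ℂ) : 0 ≤ BB z := by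
  unfold BB
  apply le_min zero_le_one
  have := CC_pos
  have h1 : Real.exp (-(2 * RR z)) ≤ 1 := Real.exp_le_one_iff.2 (by linarith [RR_nonneg z])
  have h2 : 0 ≤ 1 - Real.exp (-(2 * RR z)) := by linarith
  positivity

lemma BB_le (z : ℂ) : BB z ≤ 1 := min_le_left _ _

/-- boundary values of `WW` : `W = 2 cos θ / (cos θ - 1)`, i.e. for `‖z‖ = 1`, `z ≠ 1`. -/
lemma WW_bdry {z : ℂ} (hz : ‖z‖ = 1) (hz1 : z ≠ 1) :
    WW z = ((-2 * z.re / (1 - z.re) : ℝ) : ℂ) := by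
  have h0 : z.re ^ 2 + z.im ^ 2 = 1 := by
    have := Complex.normSq_eq_norm_sq z
    rw [Complex.normSq_apply, hz] at this
    linarith
  have h1 : 1 - z.re ≠ 0 := by
    intro h
    apply hz1
    have h2 : z.re = 1 := by linarith
    have h3 : z.im = 0 := by
      rw [h2] at h0
      nlinarith
    exact Complex.ext (by simp [h2]) (by simp [h3])
  have h2 : 1 - z ≠ 0 := by
    intro h
    exact hz1 (sub_eq_zero.1 h).symm
  have h1' : (1 - (z.re : ℂ)) ≠ 0 := by exact_mod_cast h1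
  unfold WW uu
  rw [div_pow]
  have h3 : (1 - z) ^ 2 ≠ 0 := pow_ne_zero _ h2
  push_cast
  rw [eq_div_iff h1']
  have h4 : (1 + (1 + z) ^ 2 / (1 - z) ^ 2) * (1 - (z.re:ℂ)) = (((1 - z) ^ 2 + (1 + z) ^ 2) * (1 - (z.re:ℂ))) / (1 - z) ^ 2 := by
    field_simp
  rw [h4, div_eq_iff h3]
  apply Complex.ext
  · simp only [pow_two, mul_re, mul_im, add_re, add_im, sub_re, sub_im, one_re, one_im, ofReal_re,
      ofReal_im, neg_re, neg_im, re_ofNat, im_ofNat]
    linear_combination (-2) * h0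
  · simp only [pow_two, mul_re, mul_im, add_re, add_im, sub_re, sub_im, one_re, one_im, ofReal_re,
      ofReal_im, neg_re, neg_im, re_ofNat, im_ofNat]
    ring

end Pool.Agent.H784R2.Bmoa
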