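import Pool.Agent.H784R2.BmoaB

set_option autoImplicit false
open Complex Metric Set Filter Topology MeasureTheory ComplexConjugate

namespace Pool.Agent.H784R2.Bmoa

lemma RR_bdry {z : ℂ} (hz : ‖z‖ = 1) (hz1 : z ≠ 1) :
    RR z = Real.sqrt ((|-2 * z.re / (1 - z.re)| + (-2 * z.re / (1 - z.re))) / 2) := by
  unfold RR
  rw [WW_bdry hz hz1, Complex.norm_real, Complex.ofReal_re, Real.norm_eq_abs]

lemma re_lt_one {z : ℂ} (hz : ‖z‖ = 1) (hz1 : z ≠ 1) : z.re < 1 := by
  have h0 : z.re ^ 2 + z.im ^ 2 = 1 := by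
    have := Complex.normSq_eq_norm_sq z
    rw [Complex.normSq_apply, hz] at this
    linarith
  have h1 : z.re ≤ 1 := by nlinarith [sq_nonneg z.im]
  refine lt_of_le_of_ne h1 (fun h2 => hz1 ?_)
  have h3 : z.im = 0 := by
    rw [h2] at h0
    nlinarith
  exact Complex.ext (by simp [h2]) (by simp [h3])

lemma RR_bdry_zero {z : ℂ} (hz : ‖z‖ = 1) (hz1 : z ≠ 1) (hre : 0 ≤ z.re) : RR z = 0 := by
  rw [RR_bdry hz hz1]
  have h1 := re_lt_one hz hz1
  have h2 : -2 * z.re / (1 - z.re) ≤ 0 := by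
    apply div_nonpos_of_nonpos_of_nonneg <;> linarith
  rw [abs_of_nonpos h2]
  simp

lemma RR_bdry_pos {z : ℂ} (hz : ‖z‖ = 1) (hre : z.re < 0) : 0 < RR z := by
  have hz1 : z ≠ 1 := by rintro rfl; simp at hre; linarith
  rw [RR_bdry hz hz1]
  have h1 := re_lt_one hz hz1
  have h2 : 0 < -2 * z.re / (1 - z.re) := by
    apply div_pos <;> linarith
  rw [abs_of_pos h2]
  apply Real.sqrt_pos.2
  linarith

lemma BB_bdry {z : ℂ} (hz : ‖z‖ = 1) (hz1 : z ≠ 1) (hre : 0 ≤ z.re) : BB z = 0 := by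
  unfold BB
  rw [RR_bdry_zero hz hz1 hre]
  simp

lemma dist_one {z : ℂ} (hz : ‖z‖ = 1) (hre : z.re ≤ 0) : 1.4 ≤ ‖z - 1‖ := by
  have h0 : ‖z - 1‖ ^ 2 = 2 - 2 * z.re := by
    have h1 := Complex.normSq_eq_norm_sq z
    rw [Complex.normSq_apply, hz] at h1
    rw [← Complex.normSq_eq_norm_sq, Complex.normSq_apply]
    simp only [sub_re, sub_im, one_re, one_im]
    linarith
  nlinarith [norm_nonneg (z - 1)]

/-- zeros of `ff` accumulate at 1 -/
noncomputable def ss (k : ℕ) : ℂ := 1 + 2 * Real.pi * k * I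
noncomputable def vv (k : ℕ) : ℂ := csq (ss k ^ 2 - 1)
noncomputable def zz (k : ℕ) : ℂ := (vv k - 1) / (vv k + 1)

lemma ss_sq (k : ℕ) : ss k ^ 2 - 1 = ((-(4 * Real.pi ^ 2 * k ^ 2) : ℝ) : ℂ) + ((4 * Real.pi * k : ℝ) : ℂ) * I := by
  unfold ss
  push_cast
  linear_combination (4 * (Real.pi : ℂ) ^ 2 * k ^ 2) * Complex.I_sq

lemma ss_im (k : ℕ) : (ss k ^ 2 - 1).im = 4 * Real.pi * k := by
  rw [ss_sq]
  simp only [add_im, mul_im, ofReal_re, ofReal_im, I_re, I_im]
  ring

lemma ss_slit {k : ℕ} (hk : 0 < k) : ss k ^ 2 - 1 ∈ slitPlane := by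
  rw [mem_slitPlane_iff]
  right
  rw [ss_im]
  have := Real.pi_pos
  have h2 : (0:ℝ) < k := by exact_mod_cast hk
  positivity

lemma vv_sq {k : ℕ} (hk : 0 < k) : vv k ^ 2 = ss k ^ 2 - 1 := csq_sq (slitPlane_ne_zero (ss_slit hk))

lemma vv_re {k : ℕ} (hk : 0 < k) : 0 < (vv k).re := csq_re_pos (ss_slit hk)

lemma vv_add {k : ℕ} (hk : 0 < k) : vv k + 1 ≠ 0 := by
  intro h
  have h1 := congrArg Complex.re h
  simp at h1
  have := vv_re hk
  linarith

lemma one_sub_zz {k : ℕ} (hk : 0 < k) : 1 - zz k = 2 / (vv k + 1) := by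
  have := vv_add hk
  unfold zz
  field_simp
  ring

lemma uu_zz {k : ℕ} (hk : 0 < k) : uu (zz k) = vv k := by
  unfold uu
  rw [one_sub_zz hk]
  have := vv_add hk
  unfold zz
  field_simp
  ring

lemma zz_mem {k : ℕ} (hk : 0 < k) : zz k ∈ ball (0:ℂ) 1 := by
  rw [mem_ball_zero_iff]
  have h0 := vv_add hk
  have h1 := vv_re hk
  unfold zz
  rw [norm_div, div_lt_one (norm_pos_iff.2 h0)]
  have h2 : ‖vv k - 1‖ ^ 2 < ‖vv k + 1‖ ^ 2 := by
    rw [← Complex.normSq_eq_norm_sq, ← Complex.normSq_eq_norm_sq, Complex.normSq_apply,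
      Complex.normSq_apply]
    simp only [sub_re, sub_im, one_re, one_im, add_re, add_im]
    nlinarith
  exact lt_of_pow_lt_pow_left₀ 2 (norm_nonneg _) h2

lemma ff_zz {k : ℕ} (hk : 0 < k) : ff (zz k) = 0 := by
  have h1 : WW (zz k) = ss k ^ 2 := by
    unfold WW
    rw [uu_zz hk, vv_sq hk]; ring
  have h2 : csq (WW (zz k)) = ss k := by
    have h3 := csq_sq (slitPlane_ne_zero (WW_slit (zz_mem hk)))
    have h4 := csq_re_pos (WW_slit (zz_mem hk))
    rw [h1] at h3
    rcases sq_eq_sq_iff_eq_or_eq_neg.1 h3 with h5 | h5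
    · rw [h1]; exact h5
    · exfalso
      rw [h1, h5] at h4
      unfold ss at h4
      simp at h4
      linarith
  unfold ff
  have h3 : EE (zz k) = (aa : ℂ) := by
    unfold EE
    rw [h2]
    unfold ss aa
    rw [Complex.ofReal_exp]
    rw [Complex.exp_eq_exp_iff_exists_int]
    refine ⟨-k, ?_⟩
    push_cast
    ring
  rw [h3, sub_self, zero_div]

lemma zz_near {k : ℕ} (hk : 40 ≤ k) : ‖1 - zz k‖ < 1 / 10 := by
  have hk0 : 0 < k := by omega
  rw [one_sub_zz hk0, norm_div]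
  have h0 := vv_add hk0
  have h1 := vv_re hk0
  have h2 : 480 ≤ ‖vv k‖ ^ 2 := by
    rw [← norm_pow, vv_sq hk0]
    refine le_trans ?_ (Complex.abs_im_le_norm _)
    rw [ss_im]
    refine le_trans ?_ (le_abs_self _)
    have h3 := Real.pi_gt_three
    have h4 : (40:ℝ) ≤ k := by exact_mod_cast hk
    nlinarith
  have h3 : ‖vv k‖ ^ 2 ≤ ‖vv k + 1‖ ^ 2 := by
    rw [← Complex.normSq_eq_norm_sq, ← Complex.normSq_eq_norm_sq, Complex.normSq_apply,
      Complex.normSq_apply]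
    simp only [one_re, one_im, add_re, add_im]
    nlinarith
  have h4 : 0 < ‖vv k + 1‖ := norm_pos_iff.2 h0
  have h5 : 20 < ‖vv k + 1‖ := by nlinarith
  have h6 : ‖(2:ℂ)‖ = 2 := by simp
  rw [h6, div_lt_iff₀ h4]
  linarith

lemma zz_inj {k l : ℕ} (hk : 0 < k) (hl : 0 < l) (h : zz k = zz l) : k = l := by
  have h1 : vv k = vv l := by rw [← uu_zz hk, ← uu_zz hl, h]
  have h2 : ss k ^ 2 - 1 = ss l ^ 2 - 1 := by rw [← vv_sq hk, ← vv_sq hl, h1]
  have h3 := congrArg Complex.im h2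
  rw [ss_im, ss_im] at h3
  have h4 := Real.pi_pos
  have h5 : (k:ℝ) = l := by
    apply mul_left_cancel₀ (show (4 * Real.pi : ℝ) ≠ 0 by positivity) h3
  exact_mod_cast h5

lemma exists_zeros (N : ℕ) : ∃ Z : Finset ℂ, Z.card = N ∧ ∀ z ∈ Z, z ∈ ball (0:ℂ) 1 ∧
    ff z = 0 ∧ ‖1 - z‖ < 1 / 10 := by
  refine ⟨(Finset.range N).image (fun k => zz (k + 40)), ?_, ?_⟩
  · rw [Finset.card_image_of_injective, Finset.card_range]
    intro k l h
    have := zz_inj (by omega) (by omega) h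
    omega
  · intro z hz
    rw [Finset.mem_image] at hz
    obtain ⟨k, -, rfl⟩ := hz
    exact ⟨zz_mem (by omega), ff_zz (by omega), zz_near (by omega)⟩

/-- The limiting inequality. -/
lemma limit_ineq {q : ℂ → ℂ} (hq : DifferentiableOn ℂ q (ball 0 1))
    (hfq : ∀ z ∈ ball (0:ℂ) 1, ‖ff z + conj (q z)‖ ≤ 1) (Z : Finset ℂ) (hZne : Z.Nonempty)
    (hZ : ∀ z ∈ Z, z ∈ ball (0:ℂ) 1 ∧ ff z = 0 ∧ ‖1 - z‖ < 1 / 10) {z₀ : ℂ} (hz₀ : ‖z₀‖ < 1) :
    ‖q z₀‖ ^ 2 * (∏ k ∈ Z, (1 / ‖1 - conj k * z₀‖)) ^ 2 ≤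
      (1 / (1 - ‖z₀‖)) * (1 / 1.3 ^ 2) ^ Z.card := by
  -- the limit of the right-hand side
  obtain ⟨m, hm0, hm1, hmZ⟩ : ∃ m : ℝ, 0 < m ∧ m < 1 ∧ ∀ k ∈ Z, ‖k‖ ≤ m := by
    obtain ⟨k₀, hk₀, hk₁⟩ := Z.exists_max_image (fun k => ‖k‖) hZne
    refine ⟨max ‖k₀‖ (1/2), by positivity, ?_, fun k hk => (hk₁ k hk).trans (le_max_left _ _)⟩
    apply max_lt _ (by norm_num)
    have := (hZ k₀ hk₀).1
    rwa [mem_ball_zero_iff] at this
  have hnear : ∀ᶠ ρ : ℝ in 𝓝[<] 1, (1 + m) / 2 < ρ ∧ ρ < 1 ∧ ‖z₀‖ < ρ := by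
    have h1 : Ioo (max ((1 + m) / 2) ‖z₀‖) 1 ∈ 𝓝[<] (1:ℝ) := by
      apply Ioo_mem_nhdsLT
      apply max_lt _ hz₀
      linarith
    filter_upwards [h1] with ρ hρ
    exact ⟨lt_of_le_of_lt (le_max_left _ _) hρ.1, hρ.2, lt_of_le_of_lt (le_max_right _ _) hρ.1⟩
  have hlim : Tendsto (fun ρ : ℝ => ∫ θ in (0:ℝ)..2 * Real.pi,
      BB (circleMap 0 ρ θ) * ∏ k ∈ Z, (‖circleMap 0 ρ θ - k‖ ^ 2)⁻¹) (𝓝[<] 1)
      (𝓝 (∫ θ in (0:ℝ)..2 * Real.pi,
        BB (circleMap 0 1 θ) * ∏ k ∈ Z, (‖circleMap 0 1 θ - k‖ ^ 2)⁻¹)) := by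
    apply intervalIntegral.tendsto_integral_filter_of_dominated_convergence
      (fun _ => ∏ k ∈ Z, (((1 - m) / 2) ^ 2)⁻¹)
    · filter_upwards [hnear] with ρ hρ
      apply Continuous.aestronglyMeasurable
      apply Continuous.mul
      · rw [continuous_iff_continuousAt]
        intro θ
        apply ContinuousAt.comp (f := circleMap 0 ρ) (g := BB) _ (continuous_circleMap 0 ρ).continuousAt
        apply BB_cont
        intro h
        rw [sub_eq_zero] at h
        have := norm_circleMap_zero ρ θ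
        rw [← h, norm_one, abs_of_pos (by linarith)] at this
        linarith
      · apply continuous_finsetProd
        intro k hk
        apply Continuous.inv₀
        · exact (((continuous_circleMap 0 ρ).sub continuous_const).norm).pow 2
        · intro θ
          have h3 := norm_sub_norm_le (circleMap 0 ρ θ) k
          rw [norm_circleMap_zero, abs_of_pos (by linarith)] at h3
          have := hmZ k hk
          have : 0 < ‖circleMap 0 ρ θ - k‖ := by linarith
          positivity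
    · filter_upwards [hnear] with ρ hρ
      apply Eventually.of_forall
      intro θ _
      rw [Real.norm_eq_abs, abs_of_nonneg]
      · rw [← one_mul (∏ k ∈ Z, (((1 - m) / 2) ^ 2)⁻¹)]
        apply mul_le_mul (BB_le _) _ _ zero_le_one
        · apply Finset.prod_le_prod
          · intro k _; positivity
          · intro k hk
            have h3 := norm_sub_norm_le (circleMap 0 ρ θ) k
            rw [norm_circleMap_zero, abs_of_pos (by linarith)] at h3
            have := hmZ k hk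
            have h5 : (1 - m) / 2 ≤ ‖circleMap 0 ρ θ - k‖ := by linarith
            have h6 : 0 < (1 - m) / 2 := by linarith
            apply inv_anti₀ (by positivity)
            exact pow_le_pow_left₀ h6.le h5 2
        · apply Finset.prod_nonneg
          intro k _; positivity
      · apply mul_nonneg (BB_nonneg _)
        apply Finset.prod_nonneg
        intro k _; positivity
    · exact intervalIntegrable_const
    · have h1 : ∀ᵐ θ : ℝ, θ ≠ 0 := Measure.ae_ne volume 0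
      have h2 : ∀ᵐ θ : ℝ, θ ≠ 2 * Real.pi := Measure.ae_ne volume _
      filter_upwards [h1, h2] with θ hθ1 hθ2 hθ
      rw [uIoc_of_le (by positivity)] at hθ
      have hne : circleMap 0 1 θ ≠ 1 := by
        intro h
        unfold circleMap at h
        simp only [zero_add, ofReal_one, one_mul] at h
        rw [Complex.exp_eq_one_iff] at h
        obtain ⟨n, hn⟩ := h
        have h3 : (θ : ℂ) = n * (2 * Real.pi) := by
          apply mul_right_cancel₀ I_ne_zero
          rw [hn]; ring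
        have h4 : θ = n * (2 * Real.pi) := by exact_mod_cast h3
        have h5 := Real.pi_pos
        have h6 : 0 < (n:ℝ) := by
          by_contra hcon
          push Not at hcon
          have : θ ≤ 0 := by rw [h4]; exact mul_nonpos_of_nonpos_of_nonneg hcon (by positivity)
          linarith [hθ.1]
        have h7 : (n:ℝ) < 1 := by
          have h8 : θ < 2 * Real.pi := lt_of_le_of_ne hθ.2 hθ2
          by_contra hcon
          push Not at hcon
          have : 2 * Real.pi ≤ θ := by rw [h4]; nlinarith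
          linarith
        have h8 : (0:ℤ) < n := by exact_mod_cast h6
        have h9 : n < (1:ℤ) := by exact_mod_cast h7
        omega
      have hc : Tendsto (fun ρ : ℝ => circleMap 0 ρ θ) (𝓝[<] 1) (𝓝 (circleMap 0 1 θ)) := by
        apply Tendsto.mono_left _ nhdsWithin_le_nhds
        have : Continuous (fun ρ : ℝ => circleMap 0 ρ θ) := by
          unfold circleMap
          fun_prop
        exact this.tendsto 1
      apply Tendsto.mul
      · have h3 : 1 - circleMap 0 1 θ ≠ 0 := fun h => hne (sub_eq_zero.1 h).symm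
        exact (BB_cont h3).tendsto.comp hc
      · apply tendsto_finsetProd
        intro k hk
        apply Tendsto.inv₀
        · exact ((hc.sub_const k).norm).pow 2
        · have h3 := norm_sub_norm_le (circleMap 0 1 θ) k
          rw [norm_circleMap_zero, abs_of_pos one_pos] at h3
          have := hmZ k hk
          have : 0 < ‖circleMap 0 1 θ - k‖ := by linarith
          positivity
  -- bound for the limit
  have hbound : ∫ θ in (0:ℝ)..2 * Real.pi,
        BB (circleMap 0 1 θ) * ∏ k ∈ Z, (‖circleMap 0 1 θ - k‖ ^ 2)⁻¹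
      ≤ 2 * Real.pi * (1 / 1.3 ^ 2) ^ Z.card := by
    have h1 : ∀ θ : ℝ, circleMap 0 1 θ ≠ 1 →
        ‖BB (circleMap 0 1 θ) * ∏ k ∈ Z, (‖circleMap 0 1 θ - k‖ ^ 2)⁻¹‖ ≤ (1 / 1.3 ^ 2) ^ Z.card := by
      intro θ hne
      have hn1 : ‖circleMap 0 1 θ‖ = 1 := by rw [norm_circleMap_zero, abs_of_pos one_pos]
      rw [Real.norm_eq_abs, abs_of_nonneg (mul_nonneg (BB_nonneg _)
        (Finset.prod_nonneg (fun k _ => by positivity)))]
      by_cases hre : 0 ≤ (circleMap 0 1 θ).re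
      · rw [BB_bdry hn1 hne hre, zero_mul]
        positivity
      · push Not at hre
        have h2 := dist_one hn1 hre.le
        rw [← one_mul ((1 / 1.3 ^ 2 : ℝ) ^ Z.card), ← Finset.prod_const]
        apply mul_le_mul (BB_le _) _ (Finset.prod_nonneg (fun k _ => by positivity)) zero_le_one
        apply Finset.prod_le_prod
        · intro k _; positivity
        · intro k hk
          have h3 := (hZ k hk).2.2
          have h4 : ‖circleMap 0 1 θ - 1‖ ≤ ‖circleMap 0 1 θ - k‖ + ‖1 - k‖ := by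
            have : circleMap 0 1 θ - 1 = (circleMap 0 1 θ - k) - (1 - k) := by ring
            rw [this]
            exact norm_sub_le _ _
          have h5 : 1.3 ≤ ‖circleMap 0 1 θ - k‖ := by linarith
          rw [← one_div]
          apply one_div_le_one_div_of_le (by norm_num)
          exact pow_le_pow_left₀ (by norm_num) h5 2
    have h2 : ‖∫ θ in (0:ℝ)..2 * Real.pi,
        BB (circleMap 0 1 θ) * ∏ k ∈ Z, (‖circleMap 0 1 θ - k‖ ^ 2)⁻¹‖ ≤
        (1 / 1.3 ^ 2) ^ Z.card * |2 * Real.pi - 0| := by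
      apply intervalIntegral.norm_integral_le_of_norm_le_const_ae
      have h1' : ∀ᵐ θ : ℝ, θ ≠ 0 := Measure.ae_ne volume 0
      have h2' : ∀ᵐ θ : ℝ, θ ≠ 2 * Real.pi := Measure.ae_ne volume _
      filter_upwards [h1', h2'] with θ hθ1 hθ2 hθ
      rw [uIoc_of_le (by positivity)] at hθ
      apply h1
      intro h
      unfold circleMap at h
      simp only [zero_add, ofReal_one, one_mul] at h
      rw [Complex.exp_eq_one_iff] at h
      obtain ⟨n, hn⟩ := h
      have h3 : (θ : ℂ) = n * (2 * Real.pi) := by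
        apply mul_right_cancel₀ I_ne_zero
        rw [hn]; ring
      have h4 : θ = n * (2 * Real.pi) := by exact_mod_cast h3
      have h5 := Real.pi_pos
      have h6 : 0 < (n:ℝ) := by
        by_contra hcon
        push Not at hcon
        have : θ ≤ 0 := by rw [h4]; exact mul_nonpos_of_nonpos_of_nonneg hcon (by positivity)
        linarith [hθ.1]
      have h7 : (n:ℝ) < 1 := by
        have h8 : θ < 2 * Real.pi := lt_of_le_of_ne hθ.2 hθ2
        by_contra hcon
        push Not at hcon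
        have : 2 * Real.pi ≤ θ := by rw [h4]; nlinarith
        linarith
      have h8 : (0:ℤ) < n := by exact_mod_cast h6
      have h9 : n < (1:ℤ) := by exact_mod_cast h7
      omega
    rw [sub_zero, abs_of_pos (by positivity : (0:ℝ) < 2 * Real.pi)] at h2
    have h3 := le_trans (le_abs_self _) (Real.norm_eq_abs _ ▸ h2)
    linarith
  -- take limits in `main_ineq`
  have hineq : ∀ᶠ ρ : ℝ in 𝓝[<] 1, ‖q z₀‖ ^ 2 * (∏ k ∈ Z, (ρ / ‖(ρ:ℂ) ^ 2 - conj k * z₀‖)) ^ 2 ≤
      (2 * Real.pi)⁻¹ * (ρ / (ρ - ‖z₀‖)) * ∫ θ in (0:ℝ)..2 * Real.pi,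
        BB (circleMap 0 ρ θ) * ∏ k ∈ Z, (‖circleMap 0 ρ θ - k‖ ^ 2)⁻¹ := by
    filter_upwards [hnear] with ρ hρ
    obtain ⟨hρm, hρ1, hρz⟩ := hρ
    have hρ0 : 0 < ρ := by linarith
    have h1 := main_ineq ff_diff hq hfq Z hZne (fun k hk => (hZ k hk).2.1) hρ0 hρ1
      (fun k hk => by have := hmZ k hk; linarith) hρz
    refine h1.trans ?_
    have h2 : 0 < ρ - ‖z₀‖ := by linarith
    apply mul_le_mul_of_nonneg_left _ (by positivity)
    have hmem : ∀ θ : ℝ, circleMap 0 ρ θ ∈ ball (0:ℂ) 1 := by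
      intro θ
      rw [mem_ball_zero_iff, norm_circleMap_zero, abs_of_pos hρ0]
      exact hρ1
    have hwcont : Continuous (fun θ : ℝ => ∏ k ∈ Z, (‖circleMap 0 ρ θ - k‖ ^ 2)⁻¹) := by
      apply continuous_finsetProd
      intro k hk
      apply Continuous.inv₀
      · exact (((continuous_circleMap 0 ρ).sub continuous_const).norm).pow 2
      · intro θ
        have h3 := norm_sub_norm_le (circleMap 0 ρ θ) k
        rw [norm_circleMap_zero, abs_of_pos (by linarith)] at h3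
        have := hmZ k hk
        have : 0 < ‖circleMap 0 ρ θ - k‖ := by linarith
        positivity
    apply intervalIntegral.integral_mono_on (by positivity)
    · apply Continuous.intervalIntegrable
      have hfc : Continuous (fun θ : ℝ => ff (circleMap 0 ρ θ)) :=
        ff_diff.continuousOn.comp_continuous (continuous_circleMap 0 ρ) hmem
      exact (continuous_const.sub (hfc.norm.pow 2)).mul hwcont
    · apply Continuous.intervalIntegrable
      apply Continuous.mul _ hwcont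
      rw [continuous_iff_continuousAt]
      intro θ
      apply ContinuousAt.comp (f := circleMap 0 ρ) (g := BB) _ (continuous_circleMap 0 ρ).continuousAt
      apply BB_cont
      exact one_sub_ne (hmem θ)
    · intro θ _
      apply mul_le_mul_of_nonneg_right (ff_le_BB (hmem θ))
      apply Finset.prod_nonneg
      intro k _; positivity
  have hL : Tendsto (fun ρ : ℝ => ‖q z₀‖ ^ 2 * (∏ k ∈ Z, (ρ / ‖(ρ:ℂ) ^ 2 - conj k * z₀‖)) ^ 2)
      (𝓝[<] 1) (𝓝 (‖q z₀‖ ^ 2 * (∏ k ∈ Z, (1 / ‖((1:ℝ):ℂ) ^ 2 - conj k * z₀‖)) ^ 2)) := by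
    apply Tendsto.mono_left _ nhdsWithin_le_nhds
    apply Tendsto.const_mul
    apply Tendsto.pow
    apply tendsto_finsetProd
    intro k hk
    have h1 : ContinuousAt (fun ρ : ℝ => ρ / ‖(ρ:ℂ) ^ 2 - conj k * z₀‖) 1 := by
      apply ContinuousAt.div continuousAt_id
      · fun_prop
      · rw [Ne, norm_eq_zero, sub_eq_zero]
        intro h
        have h2 := congrArg norm h
        have h3 := (hZ k hk).1
        rw [mem_ball_zero_iff] at h3
        simp only [ofReal_one, one_pow, norm_one, norm_mul, RCLike.norm_conj] at h2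
        nlinarith [norm_nonneg k, norm_nonneg z₀]
    exact h1.tendsto
  have hR : Tendsto (fun ρ : ℝ => (2 * Real.pi)⁻¹ * (ρ / (ρ - ‖z₀‖)) * ∫ θ in (0:ℝ)..2 * Real.pi,
        BB (circleMap 0 ρ θ) * ∏ k ∈ Z, (‖circleMap 0 ρ θ - k‖ ^ 2)⁻¹) (𝓝[<] 1)
      (𝓝 ((2 * Real.pi)⁻¹ * (1 / (1 - ‖z₀‖)) * ∫ θ in (0:ℝ)..2 * Real.pi,
        BB (circleMap 0 1 θ) * ∏ k ∈ Z, (‖circleMap 0 1 θ - k‖ ^ 2)⁻¹)) := by
    apply Tendsto.mul _ hlim
    apply Tendsto.const_mul
    apply Tendsto.mono_left _ nhdsWithin_le_nhds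
    have h1 : ContinuousAt (fun ρ : ℝ => ρ / (ρ - ‖z₀‖)) 1 := by
      apply ContinuousAt.div continuousAt_id (by fun_prop)
      linarith
    exact h1.tendsto
  have hfinal := le_of_tendsto_of_tendsto hL hR hineq
  simp only [ofReal_one, one_pow] at hfinal
  refine hfinal.trans ?_
  have h2 : 0 < 1 - ‖z₀‖ := by linarith
  have h3 := mul_le_mul_of_nonneg_left hbound
    (show 0 ≤ (2 * Real.pi)⁻¹ * (1 / (1 - ‖z₀‖)) by positivity)
  refine h3.trans (le_of_eq ?_)
  have := Real.pi_pos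
  field_simp

lemma q_zero_near {q : ℂ → ℂ} (hq : DifferentiableOn ℂ q (ball 0 1))
    (hfq : ∀ z ∈ ball (0:ℂ) 1, ‖ff z + conj (q z)‖ ≤ 1) {z₀ : ℂ} (hz₀ : ‖z₀‖ < 1)
    (hz₁ : ‖1 - z₀‖ < 1) : q z₀ = 0 := by
  have key : ∀ N : ℕ, 0 < N → ‖q z₀‖ ^ 2 ≤ (1 / (1 - ‖z₀‖)) * (1.1 ^ 2 / 1.3 ^ 2) ^ N := by
    intro N hN
    obtain ⟨Z, hcard, hZ⟩ := exists_zeros N
    have hZne : Z.Nonempty := Finset.card_pos.1 (by omega)
    have h1 := limit_ineq hq hfq Z hZne hZ hz₀
    rw [hcard] at h1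
    have h2 : (1 / 1.1 : ℝ) ^ N ≤ ∏ k ∈ Z, (1 / ‖1 - conj k * z₀‖) := by
      rw [← hcard, ← Finset.prod_const]
      apply Finset.prod_le_prod
      · intro k _; positivity
      · intro k hk
        obtain ⟨h3, -, h4⟩ := hZ k hk
        rw [mem_ball_zero_iff] at h3
        apply one_div_le_one_div_of_le
        · apply norm_pos_iff.2
          rw [Ne, sub_eq_zero]
          intro h
          have h2 := congrArg norm h
          simp only [norm_one, norm_mul, RCLike.norm_conj] at h2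
          nlinarith [norm_nonneg k, norm_nonneg z₀]
        · have h5 : 1 - conj k * z₀ = (1 - z₀) + conj (1 - k) * z₀ := by
            rw [map_sub, map_one]; ring
          rw [h5]
          refine (norm_add_le _ _).trans ?_
          rw [norm_mul, RCLike.norm_conj]
          have : ‖1 - k‖ * ‖z₀‖ ≤ 1 / 10 := by nlinarith [norm_nonneg (1 - k), norm_nonneg z₀]
          linarith
    have h3 : ((1 / 1.1 : ℝ) ^ N) ^ 2 ≤ (∏ k ∈ Z, (1 / ‖1 - conj k * z₀‖)) ^ 2 :=
      pow_le_pow_left₀ (by positivity) h2 2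
    have h4 : ‖q z₀‖ ^ 2 * ((1 / 1.1 : ℝ) ^ N) ^ 2 ≤ (1 / (1 - ‖z₀‖)) * (1 / 1.3 ^ 2) ^ N :=
      (mul_le_mul_of_nonneg_left h3 (by positivity)).trans h1
    have h5 : ((1 / 1.1 : ℝ) ^ N) ^ 2 * (1.1 ^ 2) ^ N = 1 := by
      rw [← pow_mul, mul_comm N 2, pow_mul, ← mul_pow]
      norm_num
    calc ‖q z₀‖ ^ 2 = (‖q z₀‖ ^ 2 * ((1 / 1.1 : ℝ) ^ N) ^ 2) * (1.1 ^ 2) ^ N := by
          rw [mul_assoc, h5, mul_one]
      _ ≤ ((1 / (1 - ‖z₀‖)) * (1 / 1.3 ^ 2) ^ N) * (1.1 ^ 2) ^ N :=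
          mul_le_mul_of_nonneg_right h4 (by positivity)
      _ = (1 / (1 - ‖z₀‖)) * (1.1 ^ 2 / 1.3 ^ 2) ^ N := by
          rw [mul_assoc, ← mul_pow]
          norm_num
  have hlim : Tendsto (fun N : ℕ => (1 / (1 - ‖z₀‖)) * ((1.1:ℝ) ^ 2 / 1.3 ^ 2) ^ N) atTop (𝓝 0) := by
    have := (tendsto_pow_atTop_nhds_zero_of_lt_one (r := ((1.1:ℝ) ^ 2 / 1.3 ^ 2)) (by norm_num)
      (by norm_num)).const_mul (1 / (1 - ‖z₀‖))
    simpa using this
  have h1 : ‖q z₀‖ ^ 2 ≤ 0 := by
    apply ge_of_tendsto hlim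
    filter_upwards [eventually_gt_atTop 0] with N hN
    exact key N hN
  have h2 : ‖q z₀‖ = 0 := by
    have := norm_nonneg (q z₀)
    nlinarith
  exact norm_eq_zero.1 h2

lemma q_zero {q : ℂ → ℂ} (hq : DifferentiableOn ℂ q (ball 0 1))
    (hfq : ∀ z ∈ ball (0:ℂ) 1, ‖ff z + conj (q z)‖ ≤ 1) : EqOn q 0 (ball 0 1) := by
  have h1 : AnalyticOnNhd ℂ q (ball 0 1) := hq.analyticOnNhd isOpen_ball
  apply h1.eqOn_zero_of_preconnected_of_eventuallyEq_zero (convex_ball (0:ℂ) 1).isPreconnected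
    (z₀ := (1/2 : ℂ))
  · rw [mem_ball_zero_iff]; norm_num
  · have h2 : ∀ᶠ z : ℂ in 𝓝 (1/2), ‖z‖ < 1 := by
      apply (continuous_norm.tendsto _).eventually_lt_const
      norm_num
    have h3 : ∀ᶠ z : ℂ in 𝓝 (1/2), ‖1 - z‖ < 1 := by
      have : Continuous (fun z : ℂ => ‖1 - z‖) := by fun_prop
      apply (this.tendsto _).eventually_lt_const
      norm_num
    filter_upwards [h2, h3] with z hz1 hz2
    exact q_zero_near hq hfq hz1 hz2

end Pool.Agent.H784R2.Bmoa
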