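import Mathlib

set_option autoImplicit false

namespace Pool.Agent.H784R2.Haar

/-- Dyadic intervals: `(n, k)` with `k < 2 ^ n`. -/
abbrev X : Type := {p : ℕ × ℕ // p.2 < 2 ^ p.1}

/-- `J ⊆ I`. -/
def Sub (J I : X) : Prop := I.1.1 ≤ J.1.1 ∧ J.1.2 / 2 ^ (J.1.1 - I.1.1) = I.1.2

instance (J I : X) : Decidable (Sub J I) := by unfold Sub; infer_instance

noncomputable def len (J : X) : ℝ := ((2:ℝ) ^ J.1.1)⁻¹

lemma len_pos (J : X) : 0 < len J := by unfold len; positivity

def c0 (I : X) : X := ⟨(I.1.1 + 1, 2 * I.1.2), by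
  have := I.2
  show 2 * I.1.2 < 2 ^ (I.1.1 + 1)
  rw [pow_succ]; omega⟩

def c1 (I : X) : X := ⟨(I.1.1 + 1, 2 * I.1.2 + 1), by
  have := I.2
  show 2 * I.1.2 + 1 < 2 ^ (I.1.1 + 1)
  rw [pow_succ]; omega⟩

lemma len_c0 (I : X) : len (c0 I) = len I / 2 := by
  unfold len c0; simp only [pow_succ]; field_simp

lemma len_c1 (I : X) : len (c1 I) = len I / 2 := by
  unfold len c1; simp only [pow_succ]; field_simp

lemma sub_refl (I : X) : Sub I I := by simp [Sub]

lemma sub_cases (J I : X) (h : Sub J I) : J = I ∨ Sub J (c0 I) ∨ Sub J (c1 I) := by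
  obtain ⟨h1, h2⟩ := h
  rcases Nat.eq_or_lt_of_le h1 with h3 | h3
  · left
    rw [← h3] at h2
    simp at h2
    apply Subtype.ext
    apply Prod.ext h3.symm h2
  · right
    have h4 : J.1.1 - I.1.1 = (J.1.1 - (I.1.1 + 1)) + 1 := by omega
    rw [h4, pow_succ, ← Nat.div_div_eq_div_mul] at h2
    unfold Sub c0 c1
    simp only
    rcases Nat.mod_two_eq_zero_or_one (J.1.2 / 2 ^ (J.1.1 - (I.1.1 + 1))) with h5 | h5
    · left; constructor
      · omega
      · omega
    · right; constructor
      · omega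
      · omega

lemma sub_c0 {J I : X} (h : Sub J (c0 I)) : Sub J I ∧ J ≠ I ∧ ¬ Sub J (c1 I) := by
  obtain ⟨h1, h2⟩ := h
  unfold c0 at h1 h2
  simp only at h1 h2
  have h4 : J.1.1 - I.1.1 = (J.1.1 - (I.1.1 + 1)) + 1 := by omega
  refine ⟨⟨by omega, ?_⟩, ?_, ?_⟩
  · rw [h4, pow_succ, ← Nat.div_div_eq_div_mul, h2]; omega
  · rintro rfl; omega
  · rintro ⟨h5, h6⟩
    unfold c1 at h5 h6
    simp only at h5 h6
    omega

lemma sub_c1 {J I : X} (h : Sub J (c1 I)) : Sub J I ∧ J ≠ I ∧ ¬ Sub J (c0 I) := by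
  obtain ⟨h1, h2⟩ := h
  unfold c1 at h1 h2
  simp only at h1 h2
  have h4 : J.1.1 - I.1.1 = (J.1.1 - (I.1.1 + 1)) + 1 := by omega
  refine ⟨⟨by omega, ?_⟩, ?_, ?_⟩
  · rw [h4, pow_succ, ← Nat.div_div_eq_div_mul, h2]; omega
  · rintro rfl; omega
  · rintro ⟨h5, h6⟩
    unfold c0 at h5 h6
    simp only at h5 h6
    omega

/-- sum of `g` over the members of `F` inside `I` -/
noncomputable def S (F : Finset X) (g : X → ℝ) (I : X) : ℝ :=
  ∑ J ∈ F, if Sub J I then g J else 0

lemma S_rec (F : Finset X) (g : X → ℝ) (I : X) :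
    S F g I = (if I ∈ F then g I else 0) + S F g (c0 I) + S F g (c1 I) := by
  unfold S
  have h1 : (if I ∈ F then g I else 0) = ∑ J ∈ F, if J = I then g J else 0 := by
    rw [Finset.sum_ite_eq']
  rw [h1, ← Finset.sum_add_distrib, ← Finset.sum_add_distrib]
  apply Finset.sum_congr rfl
  intro J _
  by_cases h : Sub J I
  · rcases sub_cases J I h with h2 | h2 | h2
    · have h3 : ¬ Sub J (c0 I) := fun h4 => (sub_c0 h4).2.1 h2
      have h5 : ¬ Sub J (c1 I) := fun h4 => (sub_c1 h4).2.1 h2
      rw [if_pos h, if_pos h2, if_neg h3, if_neg h5]; ring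
    · obtain ⟨-, h4, h5⟩ := sub_c0 h2
      rw [if_pos h, if_neg h4, if_pos h2, if_neg h5]; ring
    · obtain ⟨-, h4, h5⟩ := sub_c1 h2
      rw [if_pos h, if_neg h4, if_pos h2, if_neg h5]; ring
  · have h3 : ¬ Sub J (c0 I) := fun h4 => h (sub_c0 h4).1
    have h5 : ¬ Sub J (c1 I) := fun h4 => h (sub_c1 h4).1
    have h6 : ¬ J = I := fun h4 => h (h4 ▸ sub_refl J)
    rw [if_neg h, if_neg h3, if_neg h5, if_neg h6]; ring

lemma S_zero (F : Finset X) (g : X → ℝ) (I : X) (h : ∀ J ∈ F, J.1.1 < I.1.1) : S F g I = 0 := by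
  unfold S
  apply Finset.sum_eq_zero
  intro J hJ
  rw [if_neg]
  rintro ⟨h1, -⟩
  have := h J hJ
  omega

/-- induction from the finest level up -/
lemma tree_induction (F : Finset X) (Q : X → Prop)
    (h0 : ∀ I, (∀ J ∈ F, J.1.1 < I.1.1) → Q I) (h1 : ∀ I, Q (c0 I) → Q (c1 I) → Q I) (I : X) :
    Q I := by
  set L := F.sup (fun J => J.1.1) with hL
  have key : ∀ d : ℕ, ∀ I : X, L + 1 ≤ I.1.1 + d → Q I := by
    intro d
    induction d with
    | zero =>
      intro I hI
      apply h0
      intro J hJ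
      have : J.1.1 ≤ L := Finset.le_sup (f := fun J : X => J.1.1) hJ
      omega
    | succ d ih =>
      intro I hI
      apply h1
      · apply ih; show L + 1 ≤ I.1.1 + 1 + d; omega
      · apply ih; show L + 1 ≤ I.1.1 + 1 + d; omega
  exact key (L + 1) I (by omega)

/-- Carleson condition tested on members only implies it everywhere. -/
lemma carleson_all (F : Finset X) (g : X → ℝ) (c : ℝ) (hc : 0 ≤ c)
    (h : ∀ I ∈ F, S F g I ≤ c * len I) (I : X) : S F g I ≤ c * len I := by
  apply tree_induction F (fun I => S F g I ≤ c * len I)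
  · intro I hI
    rw [S_zero F g I hI]
    have := len_pos I
    positivity
  · intro I h0 h1
    by_cases hI : I ∈ F
    · exact h I hI
    · rw [S_rec, if_neg hI]
      rw [len_c0] at h0
      rw [len_c1] at h1
      linarith

/-- strict ancestors weight -/
def p (F : Finset X) (w : X → ℕ) (I : X) : ℕ := ∑ J ∈ F, if Sub I J ∧ J ≠ I then w J else 0

/-- ancestors weight -/
def P (F : Finset X) (w : X → ℕ) (I : X) : ℕ := ∑ J ∈ F, if Sub I J then w J else 0

lemma P_eq (F : Finset X) (w : X → ℕ) (I : X) : P F w I = p F w I + if I ∈ F then w I else 0 := by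
  unfold P p
  have h1 : (if I ∈ F then w I else 0) = ∑ J ∈ F, if J = I then w J else 0 := by
    rw [Finset.sum_ite_eq']
  rw [h1, ← Finset.sum_add_distrib]
  apply Finset.sum_congr rfl
  intro J _
  by_cases h : J = I
  · subst h
    simp [sub_refl]
  · simp [h]

lemma sub_child0 (I J : X) : (Sub (c0 I) J ∧ J ≠ c0 I) ↔ Sub I J := by
  unfold Sub c0
  simp only
  constructor
  · rintro ⟨⟨h1, h2⟩, h3⟩
    have h4 : J.1.1 ≠ I.1.1 + 1 := by
      intro h5
      apply h3
      rw [h5] at h2
      simp at h2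
      exact Subtype.ext (Prod.ext h5 h2.symm)
    refine ⟨by omega, ?_⟩
    have h5 : I.1.1 + 1 - J.1.1 = (I.1.1 - J.1.1) + 1 := by omega
    rw [h5, pow_succ', Nat.mul_div_mul_left _ _ (by norm_num)] at h2
    exact h2
  · rintro ⟨h1, h2⟩
    refine ⟨⟨by omega, ?_⟩, ?_⟩
    · have h5 : I.1.1 + 1 - J.1.1 = (I.1.1 - J.1.1) + 1 := by omega
      rw [h5, pow_succ', Nat.mul_div_mul_left _ _ (by norm_num)]
      exact h2
    · intro h3
      have := congrArg (fun J : X => J.1.1) h3
      simp only at this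
      omega

lemma sub_child1 (I J : X) : (Sub (c1 I) J ∧ J ≠ c1 I) ↔ Sub I J := by
  unfold Sub c1
  simp only
  constructor
  · rintro ⟨⟨h1, h2⟩, h3⟩
    have h4 : J.1.1 ≠ I.1.1 + 1 := by
      intro h5
      apply h3
      rw [h5] at h2
      simp at h2
      exact Subtype.ext (Prod.ext h5 h2.symm)
    refine ⟨by omega, ?_⟩
    have h5 : I.1.1 + 1 - J.1.1 = (I.1.1 - J.1.1) + 1 := by omega
    rw [h5, pow_succ', ← Nat.div_div_eq_div_mul] at h2
    have h6 : (2 * I.1.2 + 1) / 2 = I.1.2 := by omega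
    rw [h6] at h2
    exact h2
  · rintro ⟨h1, h2⟩
    refine ⟨⟨by omega, ?_⟩, ?_⟩
    · have h5 : I.1.1 + 1 - J.1.1 = (I.1.1 - J.1.1) + 1 := by omega
      rw [h5, pow_succ', ← Nat.div_div_eq_div_mul]
      have h6 : (2 * I.1.2 + 1) / 2 = I.1.2 := by omega
      rw [h6]
      exact h2
    · intro h3
      have := congrArg (fun J : X => J.1.1) h3
      simp only at this
      omega

lemma p_c0 (F : Finset X) (w : X → ℕ) (I : X) : p F w (c0 I) = P F w I := by
  unfold p P
  apply Finset.sum_congr rfl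
  intro J _
  simp only [sub_child0]

lemma p_c1 (F : Finset X) (w : X → ℕ) (I : X) : p F w (c1 I) = P F w I := by
  unfold p P
  apply Finset.sum_congr rfl
  intro J _
  simp only [sub_child1]

/-- the class `s` of the splitting -/
def A (F : Finset X) (w : X → ℕ) (r s : ℕ) : Finset X :=
  F.filter (fun J => (p F w J + s) / r < (P F w J + s) / r)

lemma ind_eq (F : Finset X) (w : X → ℕ) (r s : ℕ) (hr : 0 < r) (hw : ∀ J ∈ F, w J ≤ r) (I : X) :
    (p F w I + s) / r + (if I ∈ A F w r s then 1 else 0) = (P F w I + s) / r := by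
  have h := P_eq F w I
  by_cases hI : I ∈ F
  · rw [if_pos hI] at h
    have h1 := hw I hI
    have h2 : (P F w I + s) / r ≤ (p F w I + s) / r + 1 := by
      rw [← Nat.add_div_right _ hr]
      apply Nat.div_le_div_right
      omega
    have h3 : (p F w I + s) / r ≤ (P F w I + s) / r := by
      apply Nat.div_le_div_right
      omega
    unfold A
    simp only [Finset.mem_filter, hI, true_and]
    split_ifs with h4 <;> omega
  · rw [if_neg hI] at h
    unfold A
    simp only [Finset.mem_filter, hI, false_and, if_false]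
    rw [h, add_zero, add_zero]

/-- Hermite's identity for naturals -/
lemma hermite (r : ℕ) (hr : 0 < r) (x : ℕ) : ∑ s ∈ Finset.range r, (x + s) / r = x := by
  induction x with
  | zero =>
    apply Finset.sum_eq_zero
    intro s hs
    rw [Finset.mem_range] at hs
    simp [Nat.div_eq_of_lt hs]
  | succ x ih =>
    have h1 : ∑ s ∈ Finset.range r, (x + 1 + s) / r = ∑ s ∈ Finset.range r, (x + (s + 1)) / r := by
      apply Finset.sum_congr rfl
      intro s _
      congr 1
      ring
    rw [h1]
    have h2 := Finset.sum_range_succ (fun s => (x + s) / r) r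
    have h3 := Finset.sum_range_succ' (fun s => (x + s) / r) r
    rw [h2, ih] at h3
    simp only [add_zero] at h3
    rw [Nat.add_div_right _ hr] at h3
    omega

lemma sum_ind (F : Finset X) (w : X → ℕ) (r : ℕ) (hr : 0 < r) (hw : ∀ J ∈ F, w J ≤ r) (I : X)
    (hI : I ∈ F) : ∑ s ∈ Finset.range r, (if I ∈ A F w r s then 1 else 0) = w I := by
  have h1 : ∑ s ∈ Finset.range r, ((p F w I + s) / r + (if I ∈ A F w r s then 1 else 0))
      = ∑ s ∈ Finset.range r, (P F w I + s) / r :=
    Finset.sum_congr rfl (fun s _ => ind_eq F w r s hr hw I)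
  rw [Finset.sum_add_distrib, hermite r hr, hermite r hr, P_eq, if_pos hI] at h1
  omega

/-- the potential -/
noncomputable def th (r s x : ℕ) : ℝ := ((x + s : ℕ) : ℝ) / r - (((x + s) / r : ℕ) : ℝ)

lemma th_nonneg (r s x : ℕ) : 0 ≤ th r s x := by
  unfold th
  have := Nat.cast_div_le (α := ℝ) (m := x + s) (n := r)
  linarith

lemma S_filter (F : Finset X) (g : X → ℝ) (A : Finset X) (hA : A ⊆ F) (I : X) :
    S A g I = S F (fun J => if J ∈ A then g J else 0) I := by
  unfold S
  rw [← Finset.sum_subset hA]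
  · apply Finset.sum_congr rfl
    intro J hJ
    simp [hJ]
  · intro J _ hJ
    simp [hJ]

lemma split_bound (F : Finset X) (w : X → ℕ) (r s : ℕ) (hr : 0 < r) (hw : ∀ J ∈ F, w J ≤ r)
    (I : X) :
    S (A F w r s) len I ≤ S F (fun J => w J * len J) I / r + th r s (p F w I) * len I := by
  have hA : A F w r s ⊆ F := Finset.filter_subset _ _
  have hr' : (0:ℝ) < r := by exact_mod_cast hr
  apply tree_induction F (fun I => S (A F w r s) len I ≤
    S F (fun J => w J * len J) I / r + th r s (p F w I) * len I)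
  · intro I hI
    rw [S_zero _ _ I hI, S_zero _ _ I (fun J hJ => hI J (hA hJ))]
    have h1 := th_nonneg r s (p F w I)
    have h2 := len_pos I
    have := mul_nonneg h1 h2.le
    simpa using this
  · intro I h0 h1
    rw [p_c0, len_c0] at h0
    rw [p_c1, len_c1] at h1
    rw [S_rec (A F w r s), S_rec F]
    have h2 := ind_eq F w r s hr hw I
    have h3 : ((((p F w I + s) / r : ℕ) : ℝ) + (if I ∈ A F w r s then 1 else 0)
        = (((P F w I + s) / r : ℕ) : ℝ)) := by
      rw [← h2]; push_cast; rfl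
    have h4 : ((P F w I : ℕ) : ℝ) = p F w I + (if I ∈ F then (w I : ℝ) else 0) := by
      rw [P_eq]; push_cast; rfl
    have h5 : (if I ∈ A F w r s then len I else 0) = (if I ∈ A F w r s then (1:ℝ) else 0) * len I := by
      split_ifs <;> ring
    have h6 : (if I ∈ F then (w I : ℝ) * len I else 0) = (if I ∈ F then (w I : ℝ) else 0) * len I := by
      split_ifs <;> ring
    rw [h5, h6]
    have h7 : th r s (p F w I) = (if I ∈ A F w r s then (1:ℝ) else 0)
        + th r s (P F w I) - (if I ∈ F then (w I : ℝ) else 0) / r := by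
      unfold th
      push_cast
      rw [h4]
      have h8 : (((P F w I + s) / r : ℕ) : ℝ) = (((p F w I + s) / r : ℕ) : ℝ) + (if I ∈ A F w r s then 1 else 0) := h3.symm
      rw [h8]
      ring
    rw [h7]
    have h9 : ((if I ∈ F then (w I : ℝ) else 0) * len I + S F (fun J => ↑(w J) * len J) (c0 I) +
      S F (fun J => ↑(w J) * len J) (c1 I)) / r = (if I ∈ F then (w I : ℝ) else 0) / r * len I
       + S F (fun J => ↑(w J) * len J) (c0 I) / r + S F (fun J => ↑(w J) * len J) (c1 I) / r := by
      ring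
    rw [h9]
    linarith

lemma split_carleson (F : Finset X) (w : X → ℕ) (r s : ℕ) (hr : 0 < r) (hw : ∀ J ∈ F, w J ≤ r)
    (hC : ∀ I, S F (fun J => w J * len J) I ≤ r * len I) (I : X) (hI : I ∈ A F w r s) :
    S (A F w r s) len I ≤ 2 * len I := by
  have hr' : (0:ℝ) < r := by exact_mod_cast hr
  have hA : A F w r s ⊆ F := Finset.filter_subset _ _
  have h0 := split_bound F w r s hr hw (c0 I)
  have h1 := split_bound F w r s hr hw (c1 I)
  rw [p_c0, len_c0] at h0
  rw [p_c1, len_c1] at h1
  rw [S_rec, if_pos hI]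
  have h2 := ind_eq F w r s hr hw I
  rw [if_pos hI] at h2
  have h3 := hC I
  rw [S_rec, if_pos (hA hI)] at h3
  have h4 : ((P F w I : ℕ) : ℝ) = p F w I + (w I : ℝ) := by
    rw [P_eq, if_pos (hA hI)]; push_cast; rfl
  have h5 : th r s (P F w I) ≤ w I / r := by
    unfold th
    rw [← h2]
    push_cast
    rw [h4]
    have h6 : ((p F w I + s : ℕ) : ℝ) / r < (((p F w I + s) / r : ℕ) : ℝ) + 1 := by
      rw [div_lt_iff₀ hr']
      have := Nat.lt_div_mul_add (a := p F w I + s) hr
      have h7 : p F w I + s < ((p F w I + s) / r + 1) * r := by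
        rw [add_mul, one_mul]
        exact this
      exact_mod_cast h7
    push_cast at h6
    have h8 : ((p F w I : ℝ) + w I + s) / r = ((p F w I : ℝ) + s) / r + w I / r := by ring
    rw [h8]
    linarith
  have h6 := mul_le_mul_of_nonneg_right h5 (len_pos I).le
  have h7 : (S F (fun J => ↑(w J) * len J) (c0 I) + S F (fun J => ↑(w J) * len J) (c1 I)
      + w I * len I) / r ≤ len I := by
    rw [div_le_iff₀ hr']
    linarith
  have h8 : (S F (fun J => ↑(w J) * len J) (c0 I) + S F (fun J => ↑(w J) * len J) (c1 I)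
      + w I * len I) / r = S F (fun J => ↑(w J) * len J) (c0 I) / r +
      S F (fun J => ↑(w J) * len J) (c1 I) / r + w I / r * len I := by ring
  rw [h8] at h7
  linarith

/-- the transfer principle for integer weights -/
lemma core_nat (β : X → X) (K : ℝ) (hK : 0 ≤ K)
    (H : ∀ B : Finset X, (∀ I ∈ B, S B len I ≤ 2 * len I) → ∀ I,
      (∑ J ∈ B, if Sub (β J) I then len (β J) else 0) ≤ K * 2 * len I)
    (F : Finset X) (w : X → ℕ) (r : ℕ) (hr : 0 < r)
    (hC : ∀ I, S F (fun J => w J * len J) I ≤ r * len I) (I : X) :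
    (∑ J ∈ F, if Sub (β J) I then (w J : ℝ) * len (β J) else 0) ≤ 2 * K * r * len I := by
  have hw : ∀ J ∈ F, w J ≤ r := by
    intro J hJ
    have h1 := hC J
    have h2 : (w J : ℝ) * len J ≤ S F (fun J => w J * len J) J := by
      unfold S
      have h3 := Finset.single_le_sum (f := fun J' => if Sub J' J then (w J' : ℝ) * len J' else 0)
        (s := F) (fun J' _ => by
          have := len_pos J'
          show (0:ℝ) ≤ if Sub J' J then (w J' : ℝ) * len J' else 0
          split_ifs <;> positivity) hJ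
      simp only [sub_refl, if_true] at h3
      exact h3
    have h3 := len_pos J
    have h4 : (w J : ℝ) * len J ≤ r * len J := h2.trans h1
    have h5 : (w J : ℝ) ≤ r := le_of_mul_le_mul_right h4 h3
    exact_mod_cast h5
  have h1 : (∑ J ∈ F, if Sub (β J) I then (w J : ℝ) * len (β J) else 0)
      = ∑ s ∈ Finset.range r, ∑ J ∈ A F w r s, if Sub (β J) I then len (β J) else 0 := by
    have h2 : ∀ s ∈ Finset.range r, (∑ J ∈ A F w r s, if Sub (β J) I then len (β J) else 0)
        = ∑ J ∈ F, (if J ∈ A F w r s then (1:ℝ) else 0) * (if Sub (β J) I then len (β J) else 0) := by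
      intro s _
      have hA : A F w r s ⊆ F := Finset.filter_subset _ _
      rw [← Finset.sum_subset hA]
      · apply Finset.sum_congr rfl
        intro J hJ
        rw [if_pos hJ, one_mul]
      · intro J _ hJ
        rw [if_neg hJ, zero_mul]
    rw [Finset.sum_congr rfl h2, Finset.sum_comm]
    apply Finset.sum_congr rfl
    intro J hJ
    rw [← Finset.sum_mul]
    have h3 : (∑ s ∈ Finset.range r, if J ∈ A F w r s then (1:ℝ) else 0) = w J := by
      have := sum_ind F w r hr hw J hJ
      rw [← this]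
      push_cast
      rfl
    rw [h3]
    split_ifs <;> ring
  rw [h1]
  have h2 : ∀ s ∈ Finset.range r, (∑ J ∈ A F w r s, if Sub (β J) I then len (β J) else 0)
      ≤ K * 2 * len I := by
    intro s _
    exact H _ (fun I hI => split_carleson F w r s hr hw hC I hI) I
  have h3 := Finset.sum_le_sum h2
  rw [Finset.sum_const, Finset.card_range, nsmul_eq_mul] at h3
  linarith

/-- the transfer principle for real weights -/
lemma core (β : X → X) (K : ℝ) (hK : 0 ≤ K)
    (H : ∀ B : Finset X, (∀ I ∈ B, S B len I ≤ 2 * len I) → ∀ I,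
      (∑ J ∈ B, if Sub (β J) I then len (β J) else 0) ≤ K * 2 * len I)
    (F : Finset X) (x : X → ℝ) (hx : ∀ J, 0 ≤ x J) (M : ℝ)
    (hC : ∀ I, S F (fun J => x J * len J) I ≤ M * len I) (I : X) :
    (∑ J ∈ F, if Sub (β J) I then x J * len (β J) else 0) ≤ 2 * K * M * len I := by
  have hM : 0 ≤ M := by
    have h1 := hC I
    have h2 : 0 ≤ S F (fun J => x J * len J) I := by
      unfold S
      apply Finset.sum_nonneg
      intro J _
      have := len_pos J
      have := hx J
      split_ifs <;> positivity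
    have h3 := len_pos I
    by_contra hcon
    push Not at hcon
    have := mul_neg_of_neg_of_pos hcon h3
    linarith
  have key : ∀ N : ℕ, (N : ℝ) * (∑ J ∈ F, if Sub (β J) I then x J * len (β J) else 0)
      ≤ 2 * K * (N * M + 2) * len I + ∑ J ∈ F, len (β J) := by
    intro N
    set r : ℕ := ⌈N * M⌉₊ + 1 with hr
    set w : X → ℕ := fun J => ⌊N * x J⌋₊ with hw
    have hr0 : 0 < r := by omega
    have hNM : 0 ≤ (N:ℝ) * M := by positivity
    have hr1 : (N:ℝ) * M ≤ r := by
      rw [hr]; push_cast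
      have := Nat.le_ceil ((N:ℝ) * M)
      linarith
    have hr2 : (r:ℝ) ≤ N * M + 2 := by
      rw [hr]; push_cast
      have := Nat.ceil_lt_add_one hNM
      linarith
    have h1 : ∀ I, S F (fun J => w J * len J) I ≤ r * len I := by
      intro I
      have h2 : S F (fun J => w J * len J) I ≤ N * S F (fun J => x J * len J) I := by
        unfold S
        rw [Finset.mul_sum]
        apply Finset.sum_le_sum
        intro J _
        have h3 : ((w J : ℕ) : ℝ) ≤ N * x J := by
          have := hx J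
          exact Nat.floor_le (by positivity)
        have h4 := mul_le_mul_of_nonneg_right h3 (len_pos J).le
        split_ifs
        · linarith
        · simp
      have h5 := hC I
      have h6 : (N:ℝ) * S F (fun J => x J * len J) I ≤ N * (M * len I) :=
        mul_le_mul_of_nonneg_left h5 (by positivity)
      have h7 := mul_le_mul_of_nonneg_right hr1 (len_pos I).le
      linarith
    have h2 := core_nat β K hK H F w r hr0 h1 I
    have h3 : (N : ℝ) * (∑ J ∈ F, if Sub (β J) I then x J * len (β J) else 0)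
        ≤ (∑ J ∈ F, if Sub (β J) I then (w J : ℝ) * len (β J) else 0) + ∑ J ∈ F, len (β J) := by
      rw [Finset.mul_sum, ← Finset.sum_add_distrib]
      apply Finset.sum_le_sum
      intro J _
      have h4 : (N:ℝ) * x J ≤ (w J : ℝ) + 1 := (Nat.lt_floor_add_one _).le
      have h5 := mul_le_mul_of_nonneg_right h4 (len_pos (β J)).le
      have h6 := len_pos (β J)
      split_ifs
      · linarith
      · linarith
    have h4 : 2 * K * r * len I ≤ 2 * K * (N * M + 2) * len I := by
      apply mul_le_mul_of_nonneg_right _ (len_pos I).le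
      apply mul_le_mul_of_nonneg_left hr2 (by positivity)
    linarith
  by_contra hcon
  push Not at hcon
  set δ := (∑ J ∈ F, if Sub (β J) I then x J * len (β J) else 0) - 2 * K * M * len I with hδ
  have hδ0 : 0 < δ := by linarith
  obtain ⟨N, hN⟩ := exists_nat_gt ((4 * K * len I + ∑ J ∈ F, len (β J)) / δ)
  rw [div_lt_iff₀ hδ0] at hN
  have := key N
  have h2 : (N:ℝ) * δ = (N : ℝ) * (∑ J ∈ F, if Sub (β J) I then x J * len (β J) else 0)
    - N * (2 * K * M * len I) := by rw [hδ]; ring
  rw [h2] at hN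
  nlinarith

end Pool.Agent.H784R2.Haar
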