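import Pool.Agent.H784R2.Haar

set_option autoImplicit false
open Classical
open scoped ENNReal NNReal

namespace Pool.Agent.H784R2.Haar

/-- Carleson constant -/
noncomputable def CC (B : Set X) : ℝ≥0∞ :=
  ⨆ I ∈ B, (2:ℝ≥0∞) ^ I.1.1 *
    ∑' J : X, (if J ∈ B ∧ I.1.1 ≤ J.1.1 ∧ J.1.2 / 2 ^ (J.1.1 - I.1.1) = I.1.2
      then ((2:ℝ≥0∞) ^ J.1.1)⁻¹ else 0)

lemma pow_ofReal (n : ℕ) : (2:ℝ≥0∞) ^ n = ENNReal.ofReal ((2:ℝ) ^ n) := by
  rw [ENNReal.ofReal_pow (by norm_num)]; simp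

lemma inv_ofReal (J : X) : ((2:ℝ≥0∞) ^ J.1.1)⁻¹ = ENNReal.ofReal (len J) := by
  unfold len
  rw [ENNReal.ofReal_inv_of_pos (by positivity), pow_ofReal]

lemma sum_ofReal (G : Finset X) (B : Set X) (hG : ∀ J ∈ G, J ∈ B) (I : X) :
    ∑ J ∈ G, (if J ∈ B ∧ I.1.1 ≤ J.1.1 ∧ J.1.2 / 2 ^ (J.1.1 - I.1.1) = I.1.2
      then ((2:ℝ≥0∞) ^ J.1.1)⁻¹ else 0) = ENNReal.ofReal (S G len I) := by
  unfold S
  rw [ENNReal.ofReal_sum_of_nonneg]
  · apply Finset.sum_congr rfl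
    intro J hJ
    by_cases h : Sub J I
    · rw [if_pos h, if_pos ⟨hG J hJ, h.1, h.2⟩, inv_ofReal]
    · rw [if_neg h, if_neg]
      · simp
      · rintro ⟨-, h1, h2⟩
        exact h ⟨h1, h2⟩
  · intro J _
    have := len_pos J
    split_ifs <;> positivity

lemma two_len (I : X) : (2:ℝ) ^ I.1.1 * len I = 1 := by
  unfold len; field_simp

lemma le_CC (G : Finset X) (B : Set X) (hG : ∀ J ∈ G, J ∈ B) (I : X) (hI : I ∈ B)
    (M : ℝ) (hM0 : 0 ≤ M) (hM : CC B ≤ ENNReal.ofReal M) : S G len I ≤ M * len I := by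
  have h1 : (2:ℝ≥0∞) ^ I.1.1 * ENNReal.ofReal (S G len I) ≤ ENNReal.ofReal M := by
    refine le_trans ?_ hM
    unfold CC
    refine le_trans ?_ (le_iSup₂ (f := fun (I : X) (_ : I ∈ B) => (2:ℝ≥0∞) ^ I.1.1 *
      ∑' J : X, (if J ∈ B ∧ I.1.1 ≤ J.1.1 ∧ J.1.2 / 2 ^ (J.1.1 - I.1.1) = I.1.2
        then ((2:ℝ≥0∞) ^ J.1.1)⁻¹ else 0)) I hI)
    rw [← sum_ofReal G B hG I]
    gcongr
    exact ENNReal.sum_le_tsum _
  rw [pow_ofReal, ← ENNReal.ofReal_mul (by positivity)] at h1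
  rw [ENNReal.ofReal_le_ofReal_iff hM0] at h1
  have h2 := mul_le_mul_of_nonneg_right h1 (len_pos I).le
  have h3 := two_len I
  have h4 : (2:ℝ) ^ I.1.1 * S G len I * len I = ((2:ℝ) ^ I.1.1 * len I) * S G len I := by ring
  rw [h4, h3, one_mul] at h2
  exact h2

lemma CC_le (G : Finset X) (M : ℝ) (h : ∀ I ∈ G, S G len I ≤ M * len I) :
    CC (G : Set X) ≤ ENNReal.ofReal M := by
  unfold CC
  apply iSup₂_le
  intro I hI
  have hI' : I ∈ G := by simpa using hI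
  rw [tsum_eq_sum (s := G)]
  · rw [sum_ofReal G G (fun J hJ => by simpa using hJ) I, pow_ofReal,
      ← ENNReal.ofReal_mul (by positivity)]
    apply ENNReal.ofReal_le_ofReal
    have h1 := mul_le_mul_of_nonneg_left (h I hI') (show (0:ℝ) ≤ (2:ℝ) ^ I.1.1 by positivity)
    have h3 := two_len I
    have h4 : (2:ℝ) ^ I.1.1 * (M * len I) = M * ((2:ℝ) ^ I.1.1 * len I) := by ring
    rw [h4, h3, mul_one] at h1
    exact h1
  · intro J hJ
    rw [if_neg]
    rintro ⟨h1, -⟩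
    exact hJ (by simpa using h1)

lemma S_map (G : Finset X) (α : Equiv.Perm X) (g : X → ℝ) (I : X) :
    S (G.map α.toEmbedding) g I = ∑ J ∈ G, if Sub (α J) I then g (α J) else 0 := by
  unfold S
  rw [Finset.sum_map]
  rfl

lemma onlyif (α β : Equiv.Perm X) (C : ℝ) (hC : 0 < C)
    (h : ∀ (F : Finset X) (M : ℝ), (∀ I, (∑ J ∈ F, if Sub (α J) I then len (α J) else 0) ≤ M * len I) →
      ∀ I, (∑ J ∈ F, if Sub (β J) I then len (β J) else 0) ≤ C * M * len I) (B : Set X) :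
    CC (β '' B) ≤ ENNReal.ofReal C * CC (α '' B) := by
  by_cases hT : CC (α '' B) = ⊤
  · rw [hT, ENNReal.mul_top]
    · exact le_top
    · simpa using hC
  set M := (CC (α '' B)).toReal with hMdef
  have hM0 : 0 ≤ M := ENNReal.toReal_nonneg
  have hM : CC (α '' B) = ENNReal.ofReal M := (ENNReal.ofReal_toReal hT).symm
  rw [hM]
  conv_lhs => unfold CC
  apply iSup₂_le
  intro I hI
  rw [ENNReal.tsum_eq_iSup_sum, ENNReal.mul_iSup]
  apply iSup_le
  intro G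
  set F : Finset X := (G.filter (fun J => J ∈ β '' B)).map β.symm.toEmbedding with hF
  have hFB : ∀ J ∈ F, J ∈ B := by
    intro J hJ
    rw [hF, Finset.mem_map] at hJ
    obtain ⟨J', hJ', rfl⟩ := hJ
    rw [Finset.mem_filter] at hJ'
    obtain ⟨J'', h1, h2⟩ := hJ'.2
    rw [← h2]
    simpa using h1
  have h1 : ∀ I, (∑ J ∈ F, if Sub (α J) I then len (α J) else 0) ≤ M * len I := by
    intro I
    rw [← S_map]
    apply carleson_all _ _ _ hM0
    intro I' hI'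
    apply le_CC _ (α '' B) _ I' _ M hM0 hM.le
    · intro J hJ
      rw [Finset.mem_map] at hJ
      obtain ⟨J', hJ', rfl⟩ := hJ
      exact ⟨J', hFB J' hJ', rfl⟩
    · rw [Finset.mem_map] at hI'
      obtain ⟨J', hJ', rfl⟩ := hI'
      exact ⟨J', hFB J' hJ', rfl⟩
  have h2 := h F M h1 I
  have h3 : ∑ J ∈ G, (if J ∈ β '' B ∧ I.1.1 ≤ J.1.1 ∧ J.1.2 / 2 ^ (J.1.1 - I.1.1) = I.1.2
      then ((2:ℝ≥0∞) ^ J.1.1)⁻¹ else 0)
      = ENNReal.ofReal (∑ J ∈ F, if Sub (β J) I then len (β J) else 0) := by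
    rw [← S_map]
    have h4 : F.map β.toEmbedding = G.filter (fun J => J ∈ β '' B) := by
      rw [hF, Finset.map_map]
      ext J
      simp
    rw [h4, ← sum_ofReal _ (β '' B) (fun J hJ => (Finset.mem_filter.1 hJ).2)]
    symm
    apply Finset.sum_subset (Finset.filter_subset _ _)
    intro J hJ hJ2
    rw [if_neg]
    rintro ⟨h5, -⟩
    exact hJ2 (Finset.mem_filter.2 ⟨hJ, h5⟩)
  rw [h3, pow_ofReal, ← ENNReal.ofReal_mul (by positivity), ← ENNReal.ofReal_mul hC.le]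
  apply ENNReal.ofReal_le_ofReal
  have h4 := mul_le_mul_of_nonneg_left h2 (show (0:ℝ) ≤ (2:ℝ) ^ I.1.1 by positivity)
  have h5 := two_len I
  have h6 : (2:ℝ) ^ I.1.1 * (C * M * len I) = C * M * ((2:ℝ) ^ I.1.1 * len I) := by ring
  rw [h6, h5, mul_one] at h4
  exact h4

lemma hyp_core (α β : Equiv.Perm X) (K : ℝ≥0)
    (h : ∀ B : Set X, CC (β '' B) ≤ (K : ℝ≥0∞) * CC (α '' B)) (F : Finset X) (x : X → ℝ)
    (hx : ∀ J, 0 ≤ x J) (M : ℝ)
    (hC : ∀ I, (∑ J ∈ F, if Sub (α J) I then x J * len (α J) else 0) ≤ M * len I) (I : X) :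
    (∑ J ∈ F, if Sub (β J) I then x J * len (β J) else 0) ≤ 2 * K * M * len I := by
  have hmain := core (fun J => β (α.symm J)) K (NNReal.coe_nonneg K) (by
    intro B hB I
    have h1 : CC (B : Set X) ≤ ENNReal.ofReal 2 := CC_le B 2 hB
    have h2 := h (α.symm '' (B : Set X))
    have h3 : α '' (α.symm '' (B : Set X)) = (B : Set X) := by
      ext J; simp
    rw [h3] at h2
    have h4 : CC (β '' (α.symm '' (B : Set X))) ≤ ENNReal.ofReal (K * 2) := by
      refine h2.trans ?_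
      rw [ENNReal.ofReal_mul (NNReal.coe_nonneg K), ENNReal.ofReal_coe_nnreal]
      gcongr
    have h5 : (∑ J ∈ B, if Sub (β (α.symm J)) I then len (β (α.symm J)) else 0)
        = S (B.map (α.symm.trans β).toEmbedding) len I := by
      rw [S_map]; rfl
    rw [h5]
    apply carleson_all _ _ _ (by positivity)
    intro I' hI'
    have h6 : ∀ J ∈ B.map (α.symm.trans β).toEmbedding, J ∈ β '' (α.symm '' (B : Set X)) := by
      intro J hJ
      rw [Finset.mem_map] at hJ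
      obtain ⟨J', hJ', rfl⟩ := hJ
      exact ⟨α.symm J', ⟨J', by simpa using hJ', rfl⟩, rfl⟩
    exact le_CC _ _ h6 I' (h6 I' hI') (K * 2) (by positivity) h4)
    (F.map α.toEmbedding) (fun J => x (α.symm J)) (fun J => hx _) M (by
      intro I
      rw [S_map]
      simpa using hC I) I
  rw [Finset.sum_map] at hmain
  simpa using hmain

end Pool.Agent.H784R2.Haar
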